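import Pool.Agent.Helper56.Ulr.Defs

namespace Pool.Agent.Helper56.Quot

open MvPolynomial Pool.Agent.Helper56.Disc Pool.Agent.Helper56.Ulr

/-- The `n`-tuple of forms of degree `k` in `n` variables with coefficients `t`. -/
noncomputable def tup {n k : ℕ} (t : Fin n × Mon n k → ℂ) (i : Fin n) : MvPolynomial (Fin n) ℂ :=
  form fun α => t (i, α)

/-- The coefficients of all `n`-tuples of forms of degree `k` in `n` variables with nonzero
resultant. -/
def regTuples (n k : ℕ) : Set (Fin n × Mon n k → ℂ) := {t | IsRegularTuple k (tup t)}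

/-- `φ` is a regular function on the subset `X` of an affine space: near every point of `X` it is
a quotient of two polynomials. -/
def IsRegularFun {σ : Type} (X : Set (σ → ℂ)) (φ : X → ℂ) : Prop :=
  ∀ x₀ : X, ∃ Q R : MvPolynomial σ ℂ, eval x₀.1 R ≠ 0 ∧
    ∀ x : X, eval x.1 R ≠ 0 → φ x = eval x.1 Q / eval x.1 R

/-- `φ` depends only on the linear span of the tuple of forms. -/
def IsSpanInvariant {n k : ℕ} (φ : regTuples n k → ℂ) : Prop :=
  ∀ (B : Matrix (Fin n) (Fin n) ℂ), B.det ≠ 0 → ∀ t t' : regTuples n k,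
    (∀ i, tup t'.1 i = ∑ j, C (B i j) * tup t.1 j) → φ t' = φ t

/-- `φ` is invariant under the linear substitutions of determinant `1`. -/
def IsSubstInvariant {n k : ℕ} (φ : regTuples n k → ℂ) : Prop :=
  ∀ (A : Matrix (Fin n) (Fin n) ℂ), A.det = 1 → ∀ t t' : regTuples n k,
    (∀ i, tup t'.1 i = subst A (tup t.1 i)) → φ t' = φ t

end Pool.Agent.Helper56.Quot
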