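import Pool.Agent.Helper56.Quot.Rings

namespace Pool.Agent.Helper56.Quot

open MvPolynomial Matrix Pool.Agent.Helper56.Disc Pool.Agent.Helper56.Ulr

variable {n : ℕ}

/-- The chain rule for linear substitutions. -/
theorem pderiv_subst' (A : Matrix (Fin n) (Fin n) ℂ) (g : MvPolynomial (Fin n) ℂ) (j : Fin n) :
    pderiv j (subst A g) = ∑ i, C (A i j) * subst A (pderiv i g) := by
  induction g using MvPolynomial.induction_on with
  | C a =>
    have h1 : subst A (C a : MvPolynomial (Fin n) ℂ) = C a := by
      unfold subst; rw [aeval_C, algebraMap_eq]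
    rw [h1, pderiv_C]
    symm
    apply Finset.sum_eq_zero
    intro i _
    rw [pderiv_C]
    unfold subst
    rw [map_zero, mul_zero]
  | add p q hp hq =>
    have h1 : subst A (p + q) = subst A p + subst A q := map_add _ _ _
    rw [h1, map_add, hp, hq, ← Finset.sum_add_distrib]
    apply Finset.sum_congr rfl
    intro i _
    have h2 : subst A (pderiv i (p + q)) = subst A (pderiv i p) + subst A (pderiv i q) := by
      rw [map_add]; exact map_add _ _ _
    rw [h2]
    ring
  | mul_X p l hp =>
    have hX : subst A (X l : MvPolynomial (Fin n) ℂ) = ∑ j, C (A l j) * X j := by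
      unfold subst; rw [aeval_X]
    have hXd : pderiv j (subst A (X l : MvPolynomial (Fin n) ℂ)) = C (A l j) := by
      rw [hX, map_sum, Finset.sum_eq_single j]
      · rw [pderiv_C_mul, pderiv_X_self, mul_one]
      · intro b _ hb
        rw [pderiv_C_mul, pderiv_X_of_ne hb, mul_zero]
      · simp
    rw [subst_mul, Derivation.leibniz, hp, hXd, smul_eq_mul, smul_eq_mul, Finset.mul_sum]
    have h3 : ∀ i, C (A i j) * subst A (pderiv i (p * X l)) =
        subst A (X l) * (C (A i j) * subst A (pderiv i p)) +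
          (if i = l then subst A p * C (A l j) else 0) := by
      intro i
      rw [Derivation.leibniz, smul_eq_mul, smul_eq_mul]
      have h4 : subst A (p * pderiv i (X l) + X l * pderiv i p) =
          subst A p * subst A (pderiv i (X l)) + subst A (X l) * subst A (pderiv i p) := by
        rw [← subst_mul, ← subst_mul]; exact map_add _ _ _
      rw [h4]
      by_cases hil : i = l
      · subst hil
        rw [if_pos rfl, pderiv_X_self]
        have h5 : subst A (1 : MvPolynomial (Fin n) ℂ) = 1 := map_one _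
        rw [h5]
        ring
      · rw [if_neg hil, pderiv_X_of_ne (Ne.symm hil)]
        have h5 : subst A (0 : MvPolynomial (Fin n) ℂ) = 0 := map_zero _
        rw [h5]
        ring
    rw [Finset.sum_congr rfl fun i _ => h3 i, Finset.sum_add_distrib, Finset.sum_ite_eq'
      Finset.univ l, if_pos (Finset.mem_univ _), add_comm]

theorem jac_subst (A : Matrix (Fin n) (Fin n) ℂ) (f : Fin n → MvPolynomial (Fin n) ℂ) :
    jac (fun i => subst A (f i)) = subst A (jac f) * C A.det := by
  have h1 : (Matrix.of fun i j => pderiv j (subst A (f i))) =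
      (Matrix.of fun i j => subst A (pderiv j (f i))) * A.map C := by
    ext1 i j
    rw [of_apply, pderiv_subst', Matrix.mul_apply]
    apply Finset.sum_congr rfl
    intro l _
    rw [of_apply, map_apply, mul_comm]
  unfold jac
  rw [h1, det_mul]
  congr 1
  · have h2 := RingHom.map_det (aeval (fun i => ∑ j, C (A i j) * X j) :
      MvPolynomial (Fin n) ℂ →ₐ[ℂ] MvPolynomial (Fin n) ℂ).toRingHom
      (Matrix.of fun i j => pderiv j (f i))
    have h3 : subst A (Matrix.of fun i j => pderiv j (f i)).det =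
      (aeval (fun i => ∑ j, C (A i j) * X j) :
      MvPolynomial (Fin n) ℂ →ₐ[ℂ] MvPolynomial (Fin n) ℂ).toRingHom
      (Matrix.of fun i j => pderiv j (f i)).det := rfl
    rw [h3, h2]
    congr 1
  · rw [← RingHom.mapMatrix_apply, ← RingHom.map_det]

theorem subst_mem_span (A : Matrix (Fin n) (Fin n) ℂ) (f : Fin n → MvPolynomial (Fin n) ℂ)
    (p : MvPolynomial (Fin n) ℂ) (hp : p ∈ Ideal.span (Set.range f)) :
    subst A p ∈ Ideal.span (Set.range fun i => subst A (f i)) := by
  have h1 := Ideal.mem_map_of_mem (aeval (fun i => ∑ j, C (A i j) * X j) :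
      MvPolynomial (Fin n) ℂ →ₐ[ℂ] MvPolynomial (Fin n) ℂ).toRingHom hp
  rw [Ideal.map_span] at h1
  have h2 : ((aeval (fun i => ∑ j, C (A i j) * X j) :
      MvPolynomial (Fin n) ℂ →ₐ[ℂ] MvPolynomial (Fin n) ℂ).toRingHom) '' Set.range f =
      Set.range fun i => subst A (f i) := by
    rw [← Set.range_comp]
    rfl
  rw [h2] at h1
  exact h1

theorem subst_add (A : Matrix (Fin n) (Fin n) ℂ) (F G : MvPolynomial (Fin n) ℂ) :
    subst A (F + G) = subst A F + subst A G := map_add _ _ _

theorem subst_C (A : Matrix (Fin n) (Fin n) ℂ) (a : ℂ) :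
    subst A (C a : MvPolynomial (Fin n) ℂ) = C a := by
  unfold subst; rw [aeval_C, algebraMap_eq]

theorem subst_sub (A : Matrix (Fin n) (Fin n) ℂ) (F G : MvPolynomial (Fin n) ℂ) :
    subst A (F - G) = subst A F - subst A G := map_sub _ _ _

theorem subst_pow (A : Matrix (Fin n) (Fin n) ℂ) (F : MvPolynomial (Fin n) ℂ) (k : ℕ) :
    subst A (F ^ k) = subst A F ^ k := map_pow _ _ _

theorem subst_linform (A : Matrix (Fin n) (Fin n) ℂ) (e : Fin n → ℂ) :
    subst A (∑ i, C (e i) * X i) = ∑ i, C (Aᵀ.mulVec e i) * X i := by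
  unfold subst
  rw [map_sum]
  simp only [map_mul, aeval_X, aeval_C, algebraMap_eq, Finset.mul_sum]
  rw [Finset.sum_comm]
  apply Finset.sum_congr rfl
  intro j _
  rw [mulVec, dotProduct, map_sum, Finset.sum_mul]
  apply Finset.sum_congr rfl
  intro i _
  rw [transpose_apply, map_mul]
  ring

/-- Equivariance of the associated form. -/
theorem isAssociated_subst {d : ℕ} (A : Matrix (Fin n) (Fin n) ℂ) (hA : A.det = 1)
    (f : Fin n → MvPolynomial (Fin n) ℂ) (F : MvPolynomial (Fin n) ℂ)
    (h : IsAssociated d f F) :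
    IsAssociated d (fun i => subst A⁻¹ (f i)) (subst Aᵀ F) := by
  refine ⟨subst_isHomogeneous _ _ h.1, fun e => ?_⟩
  have h1 := subst_mem_span A⁻¹ f _ (h.2 (Aᵀ.mulVec e))
  rw [subst_sub, subst_pow, subst_linform, subst_mul, subst_C] at h1
  have hu : IsUnit A.det := by rw [hA]; exact isUnit_one
  have hdet : A⁻¹.det = 1 := by
    rw [det_nonsing_inv, hA, Ring.inverse_one]
  have h2 : (A⁻¹)ᵀ.mulVec (Aᵀ.mulVec e) = e := by
    rw [mulVec_mulVec, ← transpose_mul, mul_nonsing_inv _ hu, transpose_one, one_mulVec]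
  rw [h2, ← eval_subst] at h1
  rw [jac_subst, hdet, C_1, mul_one]
  exact h1

/-- Change of the basis of the span. -/
theorem isAssociated_smul {d : ℕ} (B : Matrix (Fin n) (Fin n) ℂ) (hB : B.det ≠ 0)
    (f : Fin n → MvPolynomial (Fin n) ℂ) (F : MvPolynomial (Fin n) ℂ)
    (h : IsAssociated d f F) :
    IsAssociated d (fun i => ∑ j, C (B i j) * f j) (C (B.det)⁻¹ * F) := by
  refine ⟨h.1.C_mul _, fun e => ?_⟩
  have h1 : jac (fun i => ∑ j, C (B i j) * f j) = C B.det * jac f := by
    have h2 : (Matrix.of fun i j => pderiv j (∑ l, C (B i l) * f l)) =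
        (B.map C) * (Matrix.of fun i j => pderiv j (f i)) := by
      ext1 i j
      rw [of_apply, Matrix.mul_apply, map_sum]
      apply Finset.sum_congr rfl
      intro l _
      rw [of_apply, map_apply, pderiv_C_mul]
    unfold jac
    rw [h2, det_mul, ← RingHom.mapMatrix_apply, ← RingHom.map_det]
  have h3 : Ideal.span (Set.range f) ≤
      Ideal.span (Set.range fun i => ∑ j, C (B i j) * f j) := by
    rw [Ideal.span_le]
    rintro _ ⟨i, rfl⟩
    have h4 : f i = ∑ l, C (B⁻¹ i l) * ∑ j, C (B l j) * f j := by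
      have h5 : ∀ j, ∑ l, B⁻¹ i l * B l j = if i = j then 1 else 0 := by
        intro j
        have := congrFun (congrFun (nonsing_inv_mul B (isUnit_iff_ne_zero.2 hB)) i) j
        rw [Matrix.mul_apply, Matrix.one_apply] at this
        exact this
      simp only [Finset.mul_sum]
      rw [Finset.sum_comm]
      have h6 : ∀ j, ∑ l, C (B⁻¹ i l) * (C (B l j) * f j) = if i = j then f j else 0 := by
        intro j
        have h7 : ∀ l, C (B⁻¹ i l) * (C (B l j) * f j) = C (B⁻¹ i l * B l j) * f j := by
          intro l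
          rw [map_mul]; ring
        rw [Finset.sum_congr rfl fun l _ => h7 l, ← Finset.sum_mul, ← map_sum, h5]
        split_ifs
        · rw [C_1, one_mul]
        · rw [C_0, zero_mul]
      rw [Finset.sum_congr rfl fun j _ => h6 j]
      simp
    rw [SetLike.mem_coe, h4]
    exact Ideal.sum_mem _ fun l _ => Ideal.mul_mem_left _ _ (Ideal.subset_span ⟨l, rfl⟩)
  have h8 := h3 (h.2 e)
  have h9 : C (eval e (C (B.det)⁻¹ * F)) * jac (fun i => ∑ j, C (B i j) * f j) =
      C (eval e F) * jac f := by
    rw [h1, map_mul, eval_C, map_mul]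
    have : C (B.det)⁻¹ * C B.det = (1 : MvPolynomial (Fin n) ℂ) := by
      rw [← map_mul, inv_mul_cancel₀ hB, C_1]
    linear_combination (C (eval e F) * jac f) * this
  rw [h9]
  exact h8

theorem regular_smul {k : ℕ} (B : Matrix (Fin n) (Fin n) ℂ) (hB : B.det ≠ 0)
    (f : Fin n → MvPolynomial (Fin n) ℂ) (hf : IsRegularTuple k f) :
    IsRegularTuple k (fun i => ∑ j, C (B i j) * f j) := by
  refine ⟨fun i => IsHomogeneous.sum _ _ _ fun j _ => (hf.1 j).C_mul _, fun z hz => hf.2 z ?_⟩
  have h1 : B.mulVec (fun j => eval z (f j)) = 0 := by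
    funext i
    rw [mulVec, dotProduct, Pi.zero_apply, ← hz i, map_sum]
    apply Finset.sum_congr rfl
    intro j _
    rw [map_mul, eval_C]
  have h2 := Matrix.eq_zero_of_mulVec_eq_zero hB h1
  intro i
  exact congrFun h2 i

end Pool.Agent.Helper56.Quot
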