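import Pool.Agent.Helper56.Quot.Reg

namespace Pool.Agent.Helper56.Quot

open MvPolynomial Matrix Pool.Agent.Helper56.Disc Pool.Agent.Helper56.Ulr

variable {n d : ℕ}

/-- Fractions of invariants of the associated form are invariant regular functions. -/
theorem fraction_mem (hn : 2 ≤ n) (hd : 3 ≤ d) (J : MvPolynomial (Mon n (n * (d - 2))) ℂ) (k : ℕ)
    (hJh : J.IsHomogeneous k) (hJi : IsSLInvariant J)
    (hJ0 : ∀ t, eval (psi hd t) J ≠ 0) (r : ℕ) (P : MvPolynomial (Mon n (n * (d - 2))) ℂ)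
    (hPh : P.IsHomogeneous (r * k)) (hPi : IsSLInvariant P) :
    (fun t => eval (psi hd t) P / eval (psi hd t) J ^ r) ∈ ringZ n (d - 1) := by
  refine ⟨?_, ?_, ?_⟩
  · intro t₀
    obtain ⟨R, F, hR, hF⟩ := psi_local hn hd t₀
    have hev : ∀ (G : MvPolynomial (Mon n (n * (d - 2))) ℂ) (j : ℕ), G.IsHomogeneous j →
        ∀ t : regTuples n (d - 1), eval t.1 (aeval F G) =
          eval t.1 R ^ j * eval (psi hd t) G := by
      intro G j hG t
      rw [eval_aeval_gen, ← eval_smul_homog G j hG]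
      congr 2
      funext γ
      exact hF t γ
    refine ⟨R * aeval F P, R * aeval F (J ^ r), ?_, fun t ht => ?_⟩
    · rw [map_mul, map_pow, map_pow, hev J k hJh]
      exact mul_ne_zero hR (pow_ne_zero _ (mul_ne_zero (pow_ne_zero _ hR) (hJ0 t₀)))
    · have hRt : eval t.1 R ≠ 0 := by
        intro h0
        apply ht
        rw [map_mul, h0, zero_mul]
      rw [map_mul, map_mul, map_pow, map_pow, hev J k hJh, hev P _ hPh]
      have h1 := hJ0 t
      rw [mul_pow, ← pow_mul, mul_comm k r]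
      field_simp
  · intro B hB t t' h
    obtain ⟨t'', h1, h2⟩ := exists_smul_tuple hd t B hB
    have h3 : psi hd t' = psi hd t'' := by
      apply psi_eq
      have h4 : tup t'.1 = tup t''.1 := by
        funext i
        rw [h i, h1 i]
      rw [h4]
      exact psi_spec hd t''
    have h5 : (B.det)⁻¹ ≠ 0 := inv_ne_zero hB
    have h6 := hJ0 t
    show eval (psi hd t') P / eval (psi hd t') J ^ r = eval (psi hd t) P / eval (psi hd t) J ^ r
    rw [h3, h2, eval_smul_homog P _ hPh, eval_smul_homog J k hJh, mul_pow, ← pow_mul,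
      mul_comm k r, mul_div_mul_left _ _ (pow_ne_zero _ h5)]
  · intro A hA t t' h
    have hA' : (A⁻¹).det = 1 := by rw [det_nonsing_inv, hA, Ring.inverse_one]
    obtain ⟨t'', h1, h2⟩ := exists_subst_tuple hd t A⁻¹ hA'
    have h3 : psi hd t' = psi hd t'' := by
      apply psi_eq
      have h4 : tup t'.1 = tup t''.1 := by
        funext i
        rw [h i, h1 i, nonsing_inv_nonsing_inv A (by rw [hA]; exact isUnit_one)]
      rw [h4]
      exact psi_spec hd t''
    show eval (psi hd t') P / eval (psi hd t') J ^ r = eval (psi hd t) P / eval (psi hd t) J ^ r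
    rw [h3, h2, isSLInvariant_act P hPi A⁻¹ hA', isSLInvariant_act J hJi A⁻¹ hA']

open HomogeneousLocalization AlgebraicGeometry

/-- Evaluation of an invariant at the associated form of a tuple. -/
noncomputable def evPsi (hd : 3 ≤ d) (t : regTuples n (d - 1)) :
    InvRing n (n * (d - 2)) →+* ℂ :=
  (eval (psi hd t)).comp (InvRing.hom n (n * (d - 2)))

theorem evPsi_apply (hd : 3 ≤ d) (t : regTuples n (d - 1)) (P : InvRing n (n * (d - 2))) :
    evPsi hd t P = eval (psi hd t) P.poly := rfl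

/-- The pullback of the fractions with denominator a power of `J`. -/
noncomputable def pull0 (hd : 3 ≤ d) (J : InvRing n (n * (d - 2)))
    (hJ0 : ∀ t, eval (psi hd t) J.poly ≠ 0) :
    Away (invGr n (n * (d - 2))) J →+* (regTuples n (d - 1) → ℂ) :=
  RingHom.pi fun t =>
    (IsLocalization.lift (M := Submonoid.powers J) (S := Localization (Submonoid.powers J))
      (g := evPsi hd t) (by
        rintro ⟨_, r, rfl⟩
        rw [map_pow]
        exact (isUnit_iff_ne_zero.2 (hJ0 t)).pow r)).comp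
    (algebraMap (Away (invGr n (n * (d - 2))) J) (Localization (Submonoid.powers J)))

theorem pull0_mk (hd : 3 ≤ d) (J : InvRing n (n * (d - 2)))
    (hJ0 : ∀ t, eval (psi hd t) J.poly ≠ 0) (k : ℕ) (hJ : J ∈ invGr n (n * (d - 2)) k)
    (r : ℕ) (P : InvRing n (n * (d - 2))) (hP : P ∈ invGr n (n * (d - 2)) (r • k))
    (t : regTuples n (d - 1)) :
    pull0 hd J hJ0 (Away.mk _ hJ r P hP) t =
      eval (psi hd t) P.poly / eval (psi hd t) J.poly ^ r := by
  unfold pull0
  rw [RingHom.pi_apply, RingHom.comp_apply]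
  have h1 : HomogeneousLocalization.val (Away.mk (invGr n (n * (d - 2))) hJ r P hP) =
      IsLocalization.mk' (Localization (Submonoid.powers J)) P
        (⟨J ^ r, ⟨r, rfl⟩⟩ : Submonoid.powers J) := by
    rw [← Localization.mk_eq_mk']
    exact Away.val_mk _ _ _ _ _
  rw [HomogeneousLocalization.algebraMap_apply]
  rw [h1, IsLocalization.lift_mk'_spec, evPsi_apply, evPsi_apply]
  have h2 := hJ0 t
  have h3 : (J ^ r).poly = J.poly ^ r := rfl
  simp only [h3, map_pow]
  field_simp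

theorem pull0_mem (hn : 2 ≤ n) (hd : 3 ≤ d) (J : InvRing n (n * (d - 2)))
    (hJ0 : ∀ t, eval (psi hd t) J.poly ≠ 0) (k : ℕ) (hJ : J ∈ invGr n (n * (d - 2)) k)
    (z : Away (invGr n (n * (d - 2))) J) : pull0 hd J hJ0 z ∈ ringZ n (d - 1) := by
  obtain ⟨r, P, hP, rfl⟩ := Away.mk_surjective _ hJ z
  have h1 : pull0 hd J hJ0 (Away.mk _ hJ r P hP) =
      fun t => eval (psi hd t) P.poly / eval (psi hd t) J.poly ^ r := by
    funext t
    exact pull0_mk hd J hJ0 k hJ r P hP t
  rw [h1]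
  exact fraction_mem hn hd J.poly k hJ J.inv hJ0 r P.poly hP P.inv

/-- The pullback homomorphism. -/
noncomputable def pull (hn : 2 ≤ n) (hd : 3 ≤ d) (J : InvRing n (n * (d - 2)))
    (hJ0 : ∀ t, eval (psi hd t) J.poly ≠ 0) (k : ℕ) (hJ : J ∈ invGr n (n * (d - 2)) k) :
    Away (invGr n (n * (d - 2))) J →+* RingZ n (d - 1) :=
  (pull0 hd J hJ0).codRestrict (ringZ n (d - 1)) (pull0_mem hn hd J hJ0 k hJ)

theorem pull_fn (hn : 2 ≤ n) (hd : 3 ≤ d) (J : InvRing n (n * (d - 2)))
    (hJ0 : ∀ t, eval (psi hd t) J.poly ≠ 0) (k : ℕ) (hJ : J ∈ invGr n (n * (d - 2)) k)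
    (z : Away (invGr n (n * (d - 2))) J) :
    (pull hn hd J hJ0 k hJ z).fn = pull0 hd J hJ0 z := rfl

theorem RingZ.ext {n k : ℕ} {φ ψ : RingZ n k} (h : φ.fn = ψ.fn) : φ = ψ := Subtype.ext h

theorem pull_surjective (hn : 2 ≤ n) (hd : 3 ≤ d) (J : InvRing n (n * (d - 2)))
    (hJ0 : ∀ t, eval (psi hd t) J.poly ≠ 0) (k : ℕ) (hJ : J ∈ invGr n (n * (d - 2)) k)
    (S : Set (MvPolynomial (Mon n (n * (d - 2))) ℂ))
    (hJS : assocImage n d = {c | eval c J.poly ≠ 0 ∧ ∀ s ∈ S, eval c s = 0}) :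
    Function.Surjective (pull hn hd J hJ0 k hJ) := by
  rintro ⟨φ, h1, h2, h3⟩
  obtain ⟨r, P, hP1, hP2, hP3⟩ := exists_fraction hn hd J.poly S k hJ J.inv hJS φ h1 h2 h3
  have hP : InvRing.mk P hP2 ∈ invGr n (n * (d - 2)) (r • k) := by
    rw [smul_eq_mul]
    exact hP1
  refine ⟨Away.mk _ hJ r (InvRing.mk P hP2) hP, ?_⟩
  apply RingZ.ext
  funext t
  rw [pull_fn, pull0_mk]
  exact (hP3 t).symm

end Pool.Agent.Helper56.Quot
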