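import Pool.Agent.Helper56.Quot.Surj

namespace Pool.Agent.Helper56.Quot

open MvPolynomial Matrix Pool.Agent.Helper56.Disc Pool.Agent.Helper56.Ulr

variable {n d : ℕ}

theorem exists_tuple (hd : 3 ≤ d) (f : Fin n → MvPolynomial (Fin n) ℂ)
    (hf : IsRegularTuple (d - 1) f) (c : Mon n (n * (d - 2)) → ℂ)
    (hc : IsAssociated d f (form c)) :
    ∃ t : regTuples n (d - 1), tup t.1 = f ∧ psi hd t = c := by
  have h1 : (untup f : Fin n × Mon n (d - 1) → ℂ) ∈ regTuples n (d - 1) := by
    show IsRegularTuple (d - 1) (tup _)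
    rw [tup_untup f hf.1]
    exact hf
  refine ⟨⟨untup f, h1⟩, tup_untup f hf.1, psi_eq hd _ _ ?_⟩
  show IsAssociated d (tup (untup f)) (form c)
  rw [tup_untup f hf.1]
  exact hc

/-- The action of a change of basis on tuples. -/
theorem exists_smul_tuple (hd : 3 ≤ d) (t : regTuples n (d - 1)) (B : Matrix (Fin n) (Fin n) ℂ)
    (hB : B.det ≠ 0) : ∃ t' : regTuples n (d - 1),
      (∀ i, tup t'.1 i = ∑ j, C (B i j) * tup t.1 j) ∧
      psi hd t' = fun γ => (B.det)⁻¹ * psi hd t γ := by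
  have h2 := isAssociated_smul B hB (tup t.1) _ (psi_spec hd t)
  have h3 : form (fun γ => (B.det)⁻¹ * psi hd t γ) = C (B.det)⁻¹ * form (psi hd t) :=
    form_smul (B.det)⁻¹ (psi hd t)
  rw [← h3] at h2
  obtain ⟨t', h4, h5⟩ := exists_tuple hd _ (regular_smul B hB (tup t.1) t.2) _ h2
  exact ⟨t', fun i => congrFun h4 i, h5⟩

/-- The action of a substitution on tuples. -/
theorem exists_subst_tuple (hd : 3 ≤ d) (t : regTuples n (d - 1)) (A : Matrix (Fin n) (Fin n) ℂ)
    (hA : A.det = 1) : ∃ t' : regTuples n (d - 1),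
      (∀ i, tup t'.1 i = subst A⁻¹ (tup t.1 i)) ∧
      psi hd t' = act A (psi hd t) := by
  have h2 := isAssociated_subst A hA (tup t.1) _ (psi_spec hd t)
  rw [← form_act] at h2
  obtain ⟨t', h4, h5⟩ := exists_tuple hd _
    (regular_subst A (by rw [hA]; exact one_ne_zero) (tup t.1) t.2) _ h2
  exact ⟨t', fun i => congrFun h4 i, h5⟩

theorem isSLInvariant_act {N : ℕ} (P : MvPolynomial (Mon n N) ℂ) (hP : IsSLInvariant P)
    (A : Matrix (Fin n) (Fin n) ℂ) (hA : A.det = 1) (c : Mon n N → ℂ) :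
    eval (act A c) P = eval c P :=
  hP Aᵀ (by rw [det_transpose, hA]) c _ (form_act A c)

theorem isSLInvariant_of_act {N : ℕ} (P : MvPolynomial (Mon n N) ℂ)
    (h : ∀ A : Matrix (Fin n) (Fin n) ℂ, A.det = 1 → ∀ v, eval (act A v) P = eval v P) :
    IsSLInvariant P := by
  intro A hA c c' hc
  have h1 : act Aᵀ c = c' := by
    unfold act
    rw [transpose_transpose, ← hc, cv_form]
  rw [← h1]
  exact h Aᵀ (by rw [det_transpose, hA]) c

/-- Every invariant regular function on the set of tuples is a fraction of invariants of the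
associated form. -/
theorem exists_fraction (hn : 2 ≤ n) (hd : 3 ≤ d) (J : MvPolynomial (Mon n (n * (d - 2))) ℂ)
    (S : Set (MvPolynomial (Mon n (n * (d - 2))) ℂ)) (k : ℕ) (hJh : J.IsHomogeneous k)
    (hJi : IsSLInvariant J)
    (hJS : assocImage n d = {c | eval c J ≠ 0 ∧ ∀ s ∈ S, eval c s = 0})
    (φ : regTuples n (d - 1) → ℂ) (h1 : IsRegularFun _ φ) (h2 : IsSpanInvariant φ)
    (h3 : IsSubstInvariant φ) :
    ∃ (r : ℕ) (P : MvPolynomial (Mon n (n * (d - 2))) ℂ), P.IsHomogeneous (r * k) ∧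
      IsSLInvariant P ∧ ∀ t, φ t = eval (psi hd t) P / eval (psi hd t) J ^ r := by
  classical
  obtain ⟨r, a, ha⟩ := exists_pow hn hd J S hJS φ h1 h2
  have hJ0 : ∀ t, eval (psi hd t) J ≠ 0 := by
    intro t
    have h4 := psi_mem hd t
    rw [hJS] at h4
    exact h4.1
  have hcomp : ∀ t, eval (psi hd t) (homogeneousComponent (r * k) a) = eval (psi hd t) a := by
    intro t
    have h5 : line a (psi hd t) =
        Polynomial.C (eval (psi hd t) a) * Polynomial.X ^ (r * k) := by
      apply poly_eq_of_ne_zero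
      intro s hs
      rw [eval_line, Polynomial.eval_mul, Polynomial.eval_C, Polynomial.eval_pow,
        Polynomial.eval_X]
      obtain ⟨μ, hμ⟩ := IsAlgClosed.exists_pow_nat_eq s⁻¹ (show 0 < n by omega)
      have hdet : (μ • (1 : Matrix (Fin n) (Fin n) ℂ)).det = s⁻¹ := by
        rw [det_smul, Fintype.card_fin, det_one, mul_one, hμ]
      obtain ⟨t', ht', hp⟩ := exists_smul_tuple hd t (μ • 1) (by rw [hdet]; exact inv_ne_zero hs)
      rw [hdet, inv_inv] at hp
      rw [← hp, ← ha, h2 _ (by rw [hdet]; exact inv_ne_zero hs) t t' ht', hp,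
        eval_smul_homog J k hJh, mul_pow, ← pow_mul, ← ha, mul_comm k r]
      ring
    have h6 := congrArg (fun q => Polynomial.coeff q (r * k)) h5
    rw [coeff_line, Polynomial.coeff_C_mul, Polynomial.coeff_X_pow, if_pos rfl, mul_one] at h6
    exact h6
  obtain ⟨P, hP1, hP2, hP3⟩ := exists_invariant' n hn (n * (d - 2)) (r * k)
    (r * k * (d - 2)) (by ring) (rho n (n * (d - 2))) rho_isHomogeneous act act_apply
    act_one act_mul (homogeneousComponent (r * k) a) (homogeneousComponent_isHomogeneous _ _)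
  refine ⟨r, P, hP1, isSLInvariant_of_act P hP2, fun t => ?_⟩
  rw [hP3 (psi hd t), hcomp, ← ha, mul_div_cancel_left₀]
  · exact pow_ne_zero _ (hJ0 t)
  · intro A hA
    obtain ⟨t', ht', hp⟩ := exists_subst_tuple hd t A hA
    rw [← hp, hcomp, hcomp, ← ha, ← ha, hp, isSLInvariant_act J hJi A hA,
      h3 A⁻¹ (by rw [det_nonsing_inv, hA, Ring.inverse_one]) t t' ht']

end Pool.Agent.Helper56.Quot
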