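import Pool.Agent.Helper56.Quot.Equi

namespace Pool.Agent.Helper56.Quot

open MvPolynomial Matrix Pool.Agent.Helper56.Disc Pool.Agent.Helper56.Ulr

/-- The apolar forms of degree `d - 1` are the span of the tuple. -/
theorem mem_span_of_perp {n d : ℕ} (hn : 2 ≤ n) (hd : 3 ≤ d) (f : Fin n → MvPolynomial (Fin n) ℂ)
    (hf : IsRegularTuple (d - 1) f) (c : Mon n (n * (d - 2)) → ℂ)
    (hc : IsAssociated d f (form c)) (g : MvPolynomial (Fin n) ℂ) (hg : g.IsHomogeneous (d - 1))
    (hF : ∀ h : MvPolynomial (Fin n) ℂ, h.IsHomogeneous (n * (d - 2) - (d - 1)) →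
      apolar (form c) (g * h) = 0) :
    g ∈ Submodule.span ℂ (Set.range f) := by
  classical
  obtain ⟨m, rfl⟩ : ∃ m, n = m + 1 := ⟨n - 1, by omega⟩
  have hN : (m + 1) * (d - 2) = (m + 1) * (d - 1 - 1) := by
    congr 1
  obtain ⟨h1, h2⟩ := perp_of_associated hn hd f hf c hc
  have hlin := regular_linearIndependent (by omega) f hf
  by_contra hgs
  -- a point
  let p : Fin (m + 1) → ℂ := fun _ => 1
  have hp : p ≠ 0 := by
    intro h
    have := congrFun h 0
    simp [p] at this
  obtain ⟨i0, hi0⟩ : ∃ i, eval p (f i) ≠ 0 := by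
    by_contra hcon
    push Not at hcon
    exact hp (hf.2 p hcon)
  let g' : Fin (m + 1) → MvPolynomial (Fin (m + 1)) ℂ := fun i =>
    if i = i0 then g - (eval p g / eval p (f i0)) • f i0
    else f i - (eval p (f i) / eval p (f i0)) • f i0
  have hg'0 : g' i0 = g - (eval p g / eval p (f i0)) • f i0 := if_pos rfl
  have hg'1 : ∀ i, i ≠ i0 → g' i = f i - (eval p (f i) / eval p (f i0)) • f i0 :=
    fun i hi => if_neg hi
  have hhom : ∀ i, (g' i).IsHomogeneous (d - 1) := by
    intro i
    by_cases hi : i = i0
    · rw [hi, hg'0, smul_eq_C_mul]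
      exact hg.sub ((hf.1 i0).C_mul _)
    · rw [hg'1 i hi, smul_eq_C_mul]
      exact (hf.1 i).sub ((hf.1 i0).C_mul _)
  have hzero : ∀ i, eval p (g' i) = 0 := by
    intro i
    by_cases hi : i = i0
    · rw [hi, hg'0, map_sub, smul_eval, div_mul_cancel₀ _ hi0, sub_self]
    · rw [hg'1 i hi, map_sub, smul_eval, div_mul_cancel₀ _ hi0, sub_self]
  have hlin' : LinearIndependent ℂ g' := by
    rw [Fintype.linearIndependent_iff]
    intro a ha
    have e1 : ∑ i, a i • g' i = a i0 • g + ((∑ i ∈ Finset.univ.erase i0, a i • f i) -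
        (a i0 * (eval p g / eval p (f i0)) + ∑ i ∈ Finset.univ.erase i0,
          a i * (eval p (f i) / eval p (f i0))) • f i0) := by
      rw [← Finset.add_sum_erase _ _ (Finset.mem_univ i0), hg'0]
      have e2 : ∑ i ∈ Finset.univ.erase i0, a i • g' i =
          ∑ i ∈ Finset.univ.erase i0, (a i • f i -
            (a i * (eval p (f i) / eval p (f i0))) • f i0) := by
        apply Finset.sum_congr rfl
        intro i hi
        rw [hg'1 i (Finset.ne_of_mem_erase hi), smul_sub, smul_smul]
      rw [e2, Finset.sum_sub_distrib, ← Finset.sum_smul, smul_sub, smul_smul, add_smul]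
      abel
    have ha0 : a i0 = 0 := by
      by_contra hne
      apply hgs
      have e3 : g = -((a i0)⁻¹ • ((∑ i ∈ Finset.univ.erase i0, a i • f i) -
        (a i0 * (eval p g / eval p (f i0)) + ∑ i ∈ Finset.univ.erase i0,
          a i * (eval p (f i) / eval p (f i0))) • f i0)) := by
        rw [e1] at ha
        have e4 := congrArg (fun x => (a i0)⁻¹ • x) ha
        simp only [smul_add, smul_smul, smul_zero] at e4
        rw [inv_mul_cancel₀ hne, one_smul] at e4
        exact eq_neg_of_add_eq_zero_left e4
      rw [e3]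
      refine Submodule.neg_mem _ (Submodule.smul_mem _ _ (Submodule.sub_mem _
        (Submodule.sum_mem _ fun i _ => Submodule.smul_mem _ _ (Submodule.subset_span ⟨i, rfl⟩))
        (Submodule.smul_mem _ _ (Submodule.subset_span ⟨i0, rfl⟩))))
    rw [e1, ha0, zero_smul, zero_add, zero_mul, zero_add] at ha
    have e5 : ∑ i, (if i = i0 then -∑ i ∈ Finset.univ.erase i0,
          a i * (eval p (f i) / eval p (f i0)) else a i) • f i = 0 := by
      rw [← Finset.add_sum_erase _ _ (Finset.mem_univ i0), if_pos rfl]
      have e6 : ∑ i ∈ Finset.univ.erase i0, (if i = i0 then -∑ i ∈ Finset.univ.erase i0,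
          a i * (eval p (f i) / eval p (f i0)) else a i) • f i =
          ∑ i ∈ Finset.univ.erase i0, a i • f i := by
        apply Finset.sum_congr rfl
        intro i hi
        rw [if_neg (Finset.ne_of_mem_erase hi)]
      rw [e6, ← ha, neg_smul]
      abel
    have e7 := Fintype.linearIndependent_iff.1 hlin _ e5
    intro i
    by_cases hi : i = i0
    · rw [hi, ha0]
    · have := e7 i
      rwa [if_neg hi] at this
  have hperp : Perp ((m + 1) * (d - 2)) (d - 1) (form c) g' := by
    intro i h hh
    have hs : ∀ (u v : MvPolynomial (Fin (m + 1)) ℂ) (a : ℂ), apolar (form c) (u * h) = 0 →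
        apolar (form c) (v * h) = 0 → apolar (form c) ((u - a • v) * h) = 0 := by
      intro u v a hu hv
      have e1 : (u - a • v) * h = u * h + C (-a) * (v * h) := by
        rw [smul_eq_C_mul, map_neg]; ring
      rw [e1, apolar_add_right, apolar_C_mul_right, hu, hv, mul_zero, add_zero]
    by_cases hi : i = i0
    · rw [hi, hg'0]
      exact hs _ _ _ (hF h hh) (h2 i0 h hh)
    · rw [hg'1 i hi]
      exact hs _ _ _ (h2 i h hh) (h2 i0 h hh)
  have h3 := eval_act_J0_ne_zero (d - 1) _ (by omega) (by omega) hN c h1 f hf h2 1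
    (by rw [det_one]; exact one_ne_zero)
  have h4 := regular_of_ne_zero (d - 1) _ (by omega) (by omega) hN c g' hhom hlin' hperp 1 h3
  exact hp (h4.2 p hzero)

/-- Cramer's rule for kernels of constant dimension. -/
theorem exists_kernel_basis {σ a b : Type} [Fintype a] [Fintype b] [DecidableEq b] {n ρ : ℕ}
    (hb : Fintype.card b = ρ + n) (M : Matrix a b (MvPolynomial σ ℂ)) (c₀ : σ → ℂ)
    (hrank : (M.map (eval c₀)).rank = ρ) :
    ∃ (Δ : MvPolynomial σ ℂ) (w : Fin n → b → MvPolynomial σ ℂ), eval c₀ Δ ≠ 0 ∧
      ∀ c : σ → ℂ, eval c Δ ≠ 0 → (M.map (eval c)).rank = ρ →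
        LinearIndependent ℂ (fun j x => eval c (w j x)) ∧
        ∀ j, (M.map (eval c)).mulVec (fun x => eval c (w j x)) = 0 := by
  classical
  obtain ⟨f, hf⟩ := exists_rows (M.map (eval c₀)) ρ hrank.ge
  -- extend to a basis
  set W := Submodule.span ℂ (Set.range ((M.map (eval c₀)).submatrix f id).row) with hW
  obtain ⟨W', hW'⟩ := Submodule.exists_isCompl W
  have hfr : Module.finrank ℂ W = ρ := by
    rw [hW, finrank_span_eq_card hf, Fintype.card_fin]
  have hfr' : Module.finrank ℂ W' = n := by
    have h1 := Submodule.finrank_add_eq_of_isCompl hW'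
    rw [Module.finrank_fintype_fun_eq_card] at h1
    omega
  let bs := Module.finBasisOfFinrankEq ℂ W' hfr'
  let u : Fin n → b → ℂ := fun j => (bs j : b → ℂ)
  have hu : LinearIndependent ℂ u := bs.linearIndependent.map' W'.subtype W'.ker_subtype
  have hsum : LinearIndependent ℂ (Sum.elim ((M.map (eval c₀)).submatrix f id).row u) := by
    apply LinearIndependent.sum_type hf hu
    refine hW'.disjoint.mono (le_refl _) ?_
    rw [Submodule.span_le]
    rintro _ ⟨j, rfl⟩
    exact (bs j).2
  have hcard : Fintype.card b = Fintype.card (Fin ρ ⊕ Fin n) := by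
    rw [Fintype.card_sum, Fintype.card_fin, Fintype.card_fin, hb]
  let e : b ≃ Fin ρ ⊕ Fin n := Fintype.equivOfCardEq hcard
  let TP : Matrix b b (MvPolynomial σ ℂ) :=
    Matrix.of fun x y => Sum.elim (fun i => M (f i) y) (fun j => C (u j y)) (e x)
  have hTP : ∀ c x, TP.map (eval c) x =
      (Sum.elim ((M.map (eval c)).submatrix f id).row u) (e x) := by
    intro c x
    funext y
    show eval c (Sum.elim (fun i => M (f i) y) (fun j => C (u j y)) (e x)) = _
    rcases e x with i | j
    · rfl
    · exact eval_C _
  have hdet : ∀ c, eval c TP.det = (TP.map (eval c)).det := by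
    intro c
    rw [RingHom.map_det]
    rfl
  have hadj : ∀ c x y, eval c (TP.adjugate x y) = (TP.map (eval c)).adjugate x y := by
    intro c x y
    rw [← RingHom.mapMatrix_apply, ← RingHom.map_adjugate]
    rfl
  refine ⟨TP.det, fun j x => TP.adjugate x (e.symm (Sum.inr j)), ?_, ?_⟩
  · rw [hdet]
    have h1 : LinearIndependent ℂ (TP.map (eval c₀)).row := by
      have h2 := hsum.comp e e.injective
      have h3 : (TP.map (eval c₀)).row =
          (Sum.elim ((M.map (eval c₀)).submatrix f id).row u) ∘ e := by
        funext x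
        exact hTP c₀ x
      rw [h3]
      exact h2
    have h2 := Matrix.linearIndependent_rows_iff_isUnit.1 h1
    exact ((Matrix.isUnit_iff_isUnit_det _).1 h2).ne_zero
  · intro c hc hrk
    rw [hdet] at hc
    simp only [hadj]
    set T := TP.map (eval c) with hT
    constructor
    · have h1 : IsUnit T.adjugate := by
        rw [Matrix.isUnit_iff_isUnit_det, det_adjugate]
        exact (isUnit_iff_ne_zero.2 hc).pow _
      have h2 := Matrix.linearIndependent_cols_iff_isUnit.2 h1
      exact h2.comp (fun j => e.symm (Sum.inr j))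
        (e.symm.injective.comp Sum.inr_injective)
    · intro j
      have h1 : ∀ i, (M.map (eval c)) (f i) ⬝ᵥ (fun x => T.adjugate x (e.symm (Sum.inr j))) = 0 := by
        intro i
        have h2 := congrFun (congrFun (mul_adjugate T) (e.symm (Sum.inl i))) (e.symm (Sum.inr j))
        rw [Matrix.mul_apply, Matrix.smul_apply, one_apply_ne, smul_zero] at h2
        · rw [← h2]
          apply Finset.sum_congr rfl
          intro y _
          congr 1
          have h3 := congrFun (hTP c (e.symm (Sum.inl i))) y
          rw [Equiv.apply_symm_apply] at h3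
          exact h3.symm
        · intro h
          have := e.symm.injective h
          cases this
      have hli : LinearIndependent ℂ ((M.map (eval c)).submatrix f id).row := by
        have h2 := Matrix.linearIndependent_rows_iff_isUnit.2
          ((Matrix.isUnit_iff_isUnit_det T).2 (isUnit_iff_ne_zero.2 hc))
        have h3 := h2.comp (fun i => e.symm (Sum.inl i)) (e.symm.injective.comp Sum.inl_injective)
        have h4 : (T.row ∘ fun i => e.symm (Sum.inl i)) =
            ((M.map (eval c)).submatrix f id).row := by
          funext i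
          have h5 := hTP c (e.symm (Sum.inl i))
          rw [Equiv.apply_symm_apply] at h5
          exact h5
        rwa [h4] at h3
      have hspan : Submodule.span ℂ (Set.range ((M.map (eval c)).submatrix f id).row) =
          Submodule.span ℂ (Set.range (M.map (eval c)).row) := by
        apply Submodule.eq_of_le_of_finrank_eq
        · apply Submodule.span_mono
          rintro _ ⟨i, rfl⟩
          exact ⟨f i, rfl⟩
        · rw [finrank_span_eq_card hli, Fintype.card_fin, ← rank_eq_finrank_span_row, hrk]
      funext x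
      rw [Pi.zero_apply, mulVec]
      have hx : (M.map (eval c)) x ∈
          Submodule.span ℂ (Set.range ((M.map (eval c)).submatrix f id).row) := by
        rw [hspan]
        exact Submodule.subset_span ⟨x, rfl⟩
      generalize (M.map (eval c)) x = v0 at hx
      induction hx using Submodule.span_induction with
      | mem v hv =>
        obtain ⟨i, rfl⟩ := hv
        exact h1 i
      | zero => rw [zero_dotProduct]
      | add v w _ _ hv hw => rw [add_dotProduct, hv, hw, add_zero]
      | smul r v _ hv => rw [smul_dotProduct, hv, smul_zero]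

end Pool.Agent.Helper56.Quot
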