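import Pool.Agent.Helper56.Ulr.Final

namespace Pool.Agent.Helper56.Quot

open MvPolynomial Matrix Pool.Agent.Helper56.Disc Pool.Agent.Helper56.Ulr

/-- The restriction of a polynomial to the line through `0` and `c`. -/
noncomputable def line {σ : Type} (P : MvPolynomial σ ℂ) (c : σ → ℂ) : Polynomial ℂ :=
  ∑ j ∈ Finset.range (P.totalDegree + 1),
    Polynomial.C (eval c (homogeneousComponent j P)) * Polynomial.X ^ j

theorem eval_line {σ : Type} (P : MvPolynomial σ ℂ) (c : σ → ℂ) (s : ℂ) :
    (line P c).eval s = eval (fun i => s * c i) P := by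
  unfold line
  rw [Polynomial.eval_finsetSum]
  conv_rhs => rw [← sum_homogeneousComponent P, map_sum]
  apply Finset.sum_congr rfl
  intro j _
  rw [Polynomial.eval_mul, Polynomial.eval_C, Polynomial.eval_pow, Polynomial.eval_X,
    eval_smul_homog _ j (homogeneousComponent_isHomogeneous j P), mul_comm]

theorem coeff_line {σ : Type} (P : MvPolynomial σ ℂ) (c : σ → ℂ) (j : ℕ) :
    (line P c).coeff j = eval c (homogeneousComponent j P) := by
  unfold line
  rw [Polynomial.finsetSum_coeff]
  simp only [Polynomial.coeff_C_mul, Polynomial.coeff_X_pow]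
  by_cases hj : j ∈ Finset.range (P.totalDegree + 1)
  · rw [Finset.sum_eq_single j]
    · rw [if_pos rfl, mul_one]
    · intro i _ hi
      rw [if_neg (Ne.symm hi), mul_zero]
    · intro h
      exact absurd hj h
  · rw [Finset.sum_eq_zero]
    · rw [Finset.mem_range, not_lt] at hj
      rw [homogeneousComponent_eq_zero j P (by omega), map_zero]
    · intro i hi
      have : j ≠ i := by
        rintro rfl
        exact hj hi
      rw [if_neg this, mul_zero]

theorem poly_eq_of_ne_zero {p q : Polynomial ℂ} (h : ∀ s, s ≠ 0 → p.eval s = q.eval s) : p = q := by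
  apply Polynomial.eq_of_infinite_eval_eq
  refine Set.Infinite.mono (s := {s : ℂ | s ≠ 0}) (fun s hs => h s hs) ?_
  exact Set.Finite.infinite_compl (Set.finite_singleton (0 : ℂ))

/-- Averaging: a homogeneous polynomial can be replaced by an invariant one without changing its
values at the points where it is already invariant. -/
theorem exists_invariant' (n : ℕ) (hn : 2 ≤ n) {ι : Type} [Fintype ι] [DecidableEq ι]
    (N k0 p : ℕ) (hdeg : k0 * N = n * p)
    (ρ : Matrix ι ι (MvPolynomial (Fin n × Fin n) ℂ)) (hρ : ∀ i j, (ρ i j).IsHomogeneous N)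
    (act : Matrix (Fin n) (Fin n) ℂ → (ι → ℂ) → (ι → ℂ))
    (hact : ∀ A v i, act A v i = ∑ j, eval (fun x : Fin n × Fin n => A x.1 x.2) (ρ i j) * v j)
    (h1 : ∀ v, act 1 v = v) (hmul : ∀ A B v, act (A * B) v = act A (act B v))
    (J0 : MvPolynomial ι ℂ) (hJ0 : J0.IsHomogeneous k0) :
    ∃ J : MvPolynomial ι ℂ, J.IsHomogeneous k0 ∧
      (∀ A : Matrix (Fin n) (Fin n) ℂ, A.det = 1 → ∀ v, eval (act A v) J = eval v J) ∧
      (∀ v, (∀ A : Matrix (Fin n) (Fin n) ℂ, A.det = 1 → eval (act A v) J0 = eval v J0) →
        eval v J = eval v J0) := by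
  classical
  let Ph : MvPolynomial (Fin n × Fin n) (MvPolynomial ι ℂ) :=
    aeval (fun i => ∑ j, MvPolynomial.C (X j) * MvPolynomial.map MvPolynomial.C (ρ i j)) J0
  let ph : (ι → ℂ) → MvPolynomial (Fin n × Fin n) ℂ := fun v =>
    aeval (fun i => ∑ j, MvPolynomial.C (v j) * ρ i j) J0
  have hPhom : Hc k0 Ph := Hc.Phi ρ J0 k0 hJ0
  have hmapP : ∀ v, MvPolynomial.map (eval v) Ph = ph v := fun v => map_Phi ρ J0 v
  have hph : ∀ v (A : Matrix (Fin n) (Fin n) ℂ),
      eval (fun x : Fin n × Fin n => A x.1 x.2) (ph v) = eval (act A v) J0 := by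
    intro v A
    show eval _ (aeval _ J0) = _
    rw [eval_aeval_gen]
    congr 2
    funext i
    rw [hact, map_sum]
    apply Finset.sum_congr rfl
    intro j _
    rw [map_mul, eval_C, mul_comm]
  let dp := gD n ^ p
  have hdp : ∀ A : Matrix (Fin n) (Fin n) ℂ,
      eval (fun x : Fin n × Fin n => A x.1 x.2) dp = A.det ^ p := by
    intro A
    show eval _ (gD n ^ p) = _
    rw [map_pow, eval_gD]
  let J : MvPolynomial ι ℂ := ∑ m ∈ dp.support, MvPolynomial.C (coeff m dp * wt m) * coeff m Ph
  have hJ : ∀ v, eval v J = apolar dp (ph v) := by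
    intro v
    show eval v (∑ m ∈ dp.support, _) = _
    rw [map_sum, apolar_eq_sum dp (ph v) dp.support (le_refl _)]
    apply Finset.sum_congr rfl
    intro m _
    rw [map_mul, eval_C, ← hmapP v, coeff_map]
    ring
  have hJhom : J.IsHomogeneous k0 := by
    apply IsHomogeneous.sum
    intro m _
    have := (isHomogeneous_C ι (coeff m dp * wt m)).mul (hPhom m)
    rwa [zero_add] at this
  have hJinv : ∀ A : Matrix (Fin n) (Fin n) ℂ, A.det = 1 → ∀ v,
      eval (act A v) J = eval v J := by
    intro B hB v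
    rw [hJ, hJ]
    let Mx : Matrix (Fin n × Fin n) (Fin n × Fin n) ℂ := fun x y =>
      if x.1 = y.1 then B y.2 x.2 else 0
    have e1 : ph (act B v) = aeval (fun i => ∑ j, MvPolynomial.C (Mx i j) * X j) (ph v) := by
      apply MvPolynomial.funext
      intro x
      have e3 : eval x (ph (act B v)) = eval (act ((Matrix.of fun a b => x (a, b)) * B) v) J0 := by
        rw [hmul, ← hph]
        rfl
      rw [e3, ← hph, eval_aeval_gen x (fun i => ∑ j, MvPolynomial.C (Mx i j) * X j) (ph v)]
      congr 2
      funext y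
      simp only [map_sum, map_mul, eval_C, eval_X, Mx, Matrix.mul_apply, Fintype.sum_prod_type,
        Matrix.of_apply, ite_mul, zero_mul]
      rw [Finset.sum_comm]
      apply Finset.sum_congr rfl
      intro c _
      simp [mul_comm]
    have e2 : aeval (fun i => ∑ j, MvPolynomial.C (Mx j i) * X j) dp = dp := by
      apply MvPolynomial.funext
      intro x
      rw [eval_aeval_gen]
      have e3 : eval x dp = (Matrix.of fun a b => x (a, b) : Matrix (Fin n) (Fin n) ℂ).det ^ p := by
        rw [← hdp]
        rfl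
      have e4 : (fun i => eval x (∑ j, MvPolynomial.C (Mx j i) * X j)) =
          fun y : Fin n × Fin n => ((Matrix.of fun a b => x (a, b) :
            Matrix (Fin n) (Fin n) ℂ) * Bᵀ) y.1 y.2 := by
        funext y
        simp only [map_sum, map_mul, eval_C, eval_X, Mx, Matrix.mul_apply, Fintype.sum_prod_type,
          Matrix.of_apply, ite_mul, zero_mul, Matrix.transpose_apply]
        rw [Finset.sum_comm]
        apply Finset.sum_congr rfl
        intro c _
        simp [mul_comm]
      rw [e4, hdp, e3, Matrix.det_mul, Matrix.det_transpose, hB, mul_one]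
    rw [e1, ← apolar_subst, e2]
  set κ : ℂ := apolar (gD n ^ p) (gD n ^ p) with hκ
  have hκ0 : κ ≠ 0 := apolar_self_ne n p
  refine ⟨C κ⁻¹ * J, hJhom.C_mul _, ?_, ?_⟩
  · intro A hA v
    rw [map_mul, map_mul, eval_C, eval_C, hJinv A hA v]
  · intro v hv
    rw [map_mul, eval_C, hJ]
    set c0 := eval v J0 with hc0
    have hval : ∀ A : Matrix (Fin n) (Fin n) ℂ, A.det ≠ 0 →
        eval (fun x : Fin n × Fin n => A x.1 x.2) (ph v) = c0 * A.det ^ p := by
      intro A hA
      obtain ⟨l, hl⟩ := IsAlgClosed.exists_pow_nat_eq A.det (show 0 < n by omega)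
      have hl0 : l ≠ 0 := by
        rintro rfl
        rw [zero_pow (by omega)] at hl
        exact hA hl.symm
      have hMdet : (l⁻¹ • A).det = 1 := by
        rw [Matrix.det_smul, Fintype.card_fin, inv_pow, hl, inv_mul_cancel₀ hA]
      have hM := hv _ hMdet
      have hA' : A = l • (l⁻¹ • A) := by
        rw [smul_smul, mul_inv_cancel₀ hl0, one_smul]
      have hactA : act A v = fun i => l ^ N * act (l⁻¹ • A) v i := by
        funext i
        conv_lhs => rw [hA']
        rw [hact, hact, Finset.mul_sum]
        apply Finset.sum_congr rfl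
        intro j _
        have : eval (fun x : Fin n × Fin n => (l • (l⁻¹ • A)) x.1 x.2) (ρ i j) =
            l ^ N * eval (fun x : Fin n × Fin n => (l⁻¹ • A) x.1 x.2) (ρ i j) := by
          rw [← eval_smul_homog _ _ (hρ i j)]
          rfl
        rw [this]
        ring
      rw [hph, hactA, eval_smul_homog _ _ hJ0, hM, ← pow_mul, mul_comm N k0, hdeg, pow_mul, hl]
      ring
    have hpoly : ph v = MvPolynomial.C c0 * dp := by
      have hD : gD n ≠ 0 := gD_ne n
      apply mul_right_cancel₀ hD
      apply MvPolynomial.funext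
      intro x
      let A : Matrix (Fin n) (Fin n) ℂ := Matrix.of fun a b => x (a, b)
      have hx : eval x = eval (fun y : Fin n × Fin n => A y.1 y.2) := rfl
      rw [hx, map_mul, map_mul, map_mul, eval_C, hdp, eval_gD]
      by_cases hA : A.det = 0
      · rw [hA]; simp
      · rw [hval A hA]
    rw [hpoly, apolar_C_mul_right]
    have : κ⁻¹ * (c0 * κ) = c0 := by field_simp
    exact this

end Pool.Agent.Helper56.Quot
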