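import Pool.Agent.Helper56.Quot.Frac
import Pool.Agent.Helper56.Disc.LinAlg

namespace Pool.Agent.Helper56.Quot

open MvPolynomial Matrix Submodule Pool.Agent.Helper56.Disc Pool.Agent.Helper56.Ulr

variable {n : ℕ}

section general

variable {R : Type} [CommRing R] {k : ℕ}

/-- The tuple of forms with coefficients in a ring. -/
noncomputable def tupR (t : Fin n × Mon n k → R) (i : Fin n) : MvPolynomial (Fin n) R :=
  form fun α => t (i, α)

/-- The coefficients of the multiples of the forms of a tuple. -/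
noncomputable def trow {e a : ℕ} (t : Fin n × Mon n k → R) (κ : Fin n × Mon n a) : Mon n e → R :=
  cv (monomial κ.2.1 1 * tupR t κ.1)

theorem trow_map {S : Type} [CommRing S] (φ : R →+* S) {e a : ℕ} (t : Fin n × Mon n k → R)
    (κ : Fin n × Mon n a) (γ : Mon n e) :
    φ (trow t κ γ) = trow (fun x => φ (t x)) κ γ := by
  unfold trow cv tupR
  rw [← coeff_map, map_mul, map_monomial, map_one, map_form]

/-- The minors. -/
noncomputable def TLam {e a : ℕ} (α0 : Mon n e) (J : Mon n e → Fin n × Mon n a)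
    (t : Fin n × Mon n k → R) (x : Mon n e → R) : R :=
  ((Matrix.of fun α => (trow t (J α) : Mon n e → R)).updateRow α0 x).det

theorem TLam_map {S : Type} [CommRing S] (φ : R →+* S) {e a : ℕ} (α0 : Mon n e)
    (J : Mon n e → Fin n × Mon n a) (t : Fin n × Mon n k → R) (x : Mon n e → R) :
    φ (TLam α0 J t x) = TLam α0 J (fun α => φ (t α)) (fun γ => φ (x γ)) := by
  unfold TLam
  rw [RingHom.map_det]
  congr 1
  ext α γ
  simp only [RingHom.mapMatrix_apply, Matrix.map_apply]
  by_cases h : α = α0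
  · subst h
    rw [updateRow_self, updateRow_self]
  · rw [updateRow_ne h, updateRow_ne h]
    exact trow_map φ t (J α) γ

/-- The Jacobian determinant over a ring. -/
noncomputable def jacR (f : Fin n → MvPolynomial (Fin n) R) : MvPolynomial (Fin n) R :=
  (Matrix.of fun i j => pderiv j (f i)).det

theorem map_jacR {S : Type} [CommRing S] (φ : R →+* S) (f : Fin n → MvPolynomial (Fin n) R) :
    MvPolynomial.map φ (jacR f) = jacR (fun i => MvPolynomial.map φ (f i)) := by
  unfold jacR
  rw [RingHom.map_det]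
  congr 1
  ext1 i j
  simp only [RingHom.mapMatrix_apply, Matrix.map_apply, of_apply]
  rw [pderiv_map]

noncomputable def jv {e : ℕ} (t : Fin n × Mon n k → R) : Mon n e → R := cv (jacR (tupR t))

theorem jv_map {S : Type} [CommRing S] (φ : R →+* S) {e : ℕ} (t : Fin n × Mon n k → R)
    (γ : Mon n e) : φ (jv t γ) = jv (fun x => φ (t x)) γ := by
  unfold jv cv
  rw [← coeff_map, map_jacR]
  unfold tupR
  simp only [map_form]

end general

section field

variable {k : ℕ}

/-- span of the rows -/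
def TW (e a : ℕ) (t : Fin n × Mon n k → ℂ) : Submodule ℂ (Mon n e → ℂ) :=
  span ℂ (Set.range (fun κ : Fin n × Mon n a => (trow t κ : Mon n e → ℂ)))

theorem form_mem_of_mem_TW {e a : ℕ} (h : a + k = e) (t : Fin n × Mon n k → ℂ)
    (x : Mon n e → ℂ) (hx : x ∈ TW e a t) : form x ∈ Ideal.span (Set.range (tup t)) := by
  unfold TW at hx
  induction hx using Submodule.span_induction with
  | mem x hx =>
    obtain ⟨κ, rfl⟩ := hx
    simp only [trow]
    rw [form_cv]
    · exact Ideal.mul_mem_left _ _ (Ideal.subset_span ⟨κ.1, rfl⟩)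
    · rw [← h]
      exact (isHomogeneous_monomial _ (mon_degree κ.2)).mul (form_isHomogeneous _)
  | zero =>
    have : form (0 : Mon n e → ℂ) = 0 := by simp [form]
    rw [this]
    exact Ideal.zero_mem _
  | add x y _ _ h1 h2 =>
    rw [form_add]
    exact Ideal.add_mem _ h1 h2
  | smul a x _ h1 =>
    rw [form_smul]
    exact Ideal.mul_mem_left _ _ h1

theorem mem_TW_of_form_mem {e a : ℕ} (h : a + k = e) (t : Fin n × Mon n k → ℂ)
    (x : Mon n e → ℂ) (hx : form x ∈ Ideal.span (Set.range (tup t))) : x ∈ TW e a t := by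
  have hh : (form x).IsHomogeneous (a + k) := by
    rw [h]; exact form_isHomogeneous x
  obtain ⟨p, hp, hpx⟩ := exists_homogeneous_coeffs (tup t) k a
    (fun i => form_isHomogeneous _) (form x) hh hx
  have h1 : x = ∑ i, ∑ β : Mon n a, (coeff β.1 (p i)) • (trow t (i, β) : Mon n e → ℂ) := by
    rw [← cv_form x, hpx]
    funext γ
    simp only [cv, Finset.sum_apply, Pi.smul_apply, trow, smul_eq_mul]
    rw [coeff_sum]
    apply Finset.sum_congr rfl
    intro i _
    conv_lhs => rw [← form_cv (p i) (hp i)]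
    rw [form.eq_def (cv (p i))]
    rw [Finset.sum_mul, coeff_sum]
    apply Finset.sum_congr rfl
    intro β _
    rw [← coeff_C_mul, ← mul_assoc, C_mul_monomial, mul_one]
    rfl
  rw [h1]
  unfold TW
  exact Submodule.sum_mem _ fun i _ => Submodule.sum_mem _ fun β _ =>
    Submodule.smul_mem _ _ (subset_span ⟨(i, β), rfl⟩)

theorem TLam_sub_smul {e a : ℕ} (α0 : Mon n e)
    (J : Mon n e → Fin n × Mon n a) (t : Fin n × Mon n k → ℂ) (x y : Mon n e → ℂ) (v : ℂ) :
    TLam α0 J t (x - v • y) = TLam α0 J t x - v * TLam α0 J t y := by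
  unfold TLam
  have : x - v • y = x + (-v) • y := by rw [neg_smul, sub_eq_add_neg]
  rw [this, det_updateRow_add, det_updateRow_smul]
  ring

theorem TLam_eq_zero {e a : ℕ} (α0 : Mon n e) (J : Mon n e → Fin n × Mon n a)
    (t : Fin n × Mon n k → ℂ)
    (hW : TW e a t ≠ ⊤) (x : Mon n e → ℂ) (hx : x ∈ TW e a t) : TLam α0 J t x = 0 := by
  unfold TLam
  apply det_eq_zero_of_mem _ hW
  intro α
  by_cases h : α = α0
  · subst h
    rw [updateRow_self]
    exact hx
  · rw [updateRow_ne h]
    exact subset_span ⟨J α, rfl⟩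

end field

/-- Near every tuple the associated form is a quotient of polynomials. -/
theorem psi_local {d : ℕ} (hn : 2 ≤ n) (hd : 3 ≤ d) (t₀ : regTuples n (d - 1)) :
    ∃ (R : MvPolynomial (Fin n × Mon n (d - 1)) ℂ)
      (F : Mon n (n * (d - 2)) → MvPolynomial (Fin n × Mon n (d - 1)) ℂ),
      eval t₀.1 R ≠ 0 ∧ ∀ (t : regTuples n (d - 1)) γ,
        eval t.1 (F γ) = eval t.1 R * psi hd t γ := by
  classical
  have hd1 : d - 1 - 1 = d - 2 := by omega
  have hkN : d - 1 ≤ n * (d - 2) := by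
    obtain ⟨ε, rfl⟩ := Nat.exists_eq_add_of_le hd
    have e1 : 3 + ε - 1 = ε + 2 := by omega
    have e2 : 3 + ε - 2 = ε + 1 := by omega
    rw [e1, e2]
    nlinarith
  obtain ⟨a, ha⟩ : ∃ a, a + (d - 1) = n * (d - 2) := ⟨n * (d - 2) - (d - 1), by omega⟩
  have hjv : ∀ t : regTuples n (d - 1), form (jv t.1 : Mon n (n * (d - 2)) → ℂ) =
      jac (tup t.1) := by
    intro t
    apply form_cv
    have := jac_isHomogeneous (d - 1) (tup t.1) t.2.1
    rwa [hd1] at this
  have hsoc := fun t : regTuples n (d - 1) => socle_tuple (by omega) (tup t.1) t.2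
  have hnot : ∀ t : regTuples n (d - 1), (jv t.1 : Mon n (n * (d - 2)) → ℂ) ∉
      TW (n * (d - 2)) a t.1 := by
    intro t hm
    apply (hsoc t).1
    rw [← hjv]
    exact form_mem_of_mem_TW ha _ _ hm
  have hW : ∀ t : regTuples n (d - 1), TW (n * (d - 2)) a t.1 ≠ ⊤ := by
    intro t hT
    apply hnot t
    rw [hT]
    trivial
  have hsub : ∀ (t : regTuples n (d - 1)) (x : Mon n (n * (d - 2)) → ℂ) (v : ℂ),
      form x - C v * jac (tup t.1) ∈ Ideal.span (Set.range (tup t.1)) →
      x - v • (jv t.1 : Mon n (n * (d - 2)) → ℂ) ∈ TW (n * (d - 2)) a t.1 := by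
    intro t x v h
    apply mem_TW_of_form_mem ha
    have : form (x - v • (jv t.1 : Mon n (n * (d - 2)) → ℂ)) =
        form x - C v * jac (tup t.1) := by
      have e1 : x - v • (jv t.1 : Mon n (n * (d - 2)) → ℂ) = x + (-v) • jv t.1 := by
        rw [neg_smul, sub_eq_add_neg]
      rw [e1, form_add, form_smul, hjv, map_neg]
      ring
    rw [this]
    exact h
  have hsup : ∀ (t : regTuples n (d - 1)) (x : Mon n (n * (d - 2)) → ℂ),
      x ∈ TW (n * (d - 2)) a t.1 ⊔ span ℂ {(jv t.1 : Mon n (n * (d - 2)) → ℂ)} := by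
    intro t x
    obtain ⟨v, hv⟩ := (hsoc t).2 (form x) (by rw [hd1]; exact form_isHomogeneous x)
    rw [Submodule.mem_sup]
    exact ⟨_, hsub t x v hv, v • jv t.1,
      Submodule.smul_mem _ _ (Submodule.mem_span_singleton_self _), by simp⟩
  have hα : Nonempty (Mon n (n * (d - 2))) :=
    ⟨⟨Finsupp.single ⟨0, by omega⟩ (n * (d - 2)), mem_mon _ (Finsupp.degree_single _ _)⟩⟩
  have hβ : Nonempty (Mon n a) :=
    ⟨⟨Finsupp.single ⟨0, by omega⟩ a, mem_mon _ (Finsupp.degree_single _ _)⟩⟩
  obtain ⟨α0⟩ := hα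
  have hκ : Nonempty (Fin n × Mon n a) := ⟨(⟨0, by omega⟩, Classical.arbitrary _)⟩
  obtain ⟨J, hJ⟩ := exists_det_ne_zero (fun κ : Fin n × Mon n a =>
      (trow t₀.1 κ : Mon n (n * (d - 2)) → ℂ)) (jv t₀.1) α0 (hnot t₀) (hsup t₀)
  have hfac : ((n * (d - 2)).factorial : ℂ) ≠ 0 := by
    rw [Nat.cast_ne_zero]; exact Nat.factorial_ne_zero _
  have hwt : ∀ γ : Mon n (n * (d - 2)), wt γ.1 ≠ 0 := by
    intro γ
    unfold wt
    rw [Nat.cast_ne_zero, Finset.prod_ne_zero_iff]
    exact fun i _ => Nat.factorial_ne_zero _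
  refine ⟨TLam α0 J (fun x => X x) (jv fun x => X x),
    fun γ => C (((n * (d - 2)).factorial : ℂ) * (wt γ.1)⁻¹) *
      TLam α0 J (fun x => X x) (fun β => C (if β = γ then 1 else 0)), ?_, ?_⟩
  · rw [TLam_map]
    have h1 : (fun x => eval t₀.1 (X x)) = t₀.1 := by funext x; simp
    have h2 : (fun γ : Mon n (n * (d - 2)) => eval t₀.1 (jv (fun x => X x) γ)) = jv t₀.1 := by
      funext γ
      rw [jv_map, h1]
    rw [h1, h2]
    exact hJ
  · intro t γ
    have h1 : (fun x => eval t.1 (X x)) = t.1 := by funext x; simp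
    have h2 : (fun γ : Mon n (n * (d - 2)) => eval t.1 (jv (fun x => X x) γ)) = jv t.1 := by
      funext γ
      rw [jv_map, h1]
    rw [map_mul, eval_C, TLam_map, TLam_map, h1, h2]
    have h3 : (fun β : Mon n (n * (d - 2)) => eval t.1 (C (if β = γ then (1 : ℂ) else 0))) =
        Pi.single γ 1 := by
      funext β
      rw [eval_C, Pi.single_apply]
    rw [h3]
    have h4 : form (Pi.single γ (1 : ℂ)) = monomial γ.1 1 := by
      unfold form
      rw [Finset.sum_eq_single γ]
      · rw [Pi.single_eq_same]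
      · intro β _ hβ
        rw [Pi.single_eq_of_ne hβ, map_zero]
      · simp
    have h5 := (isAssociated_iff hd (tup t.1) t.2 (psi hd t)).1 (psi_spec hd t)
      (monomial γ.1 1) (isHomogeneous_monomial _ (mon_degree γ))
    have h6 : apolar (form (psi hd t)) (monomial γ.1 1) = psi hd t γ * wt γ.1 := by
      rw [apolar_form, Finset.sum_eq_single γ]
      · rw [coeff_monomial, if_pos rfl, mul_one]
      · intro β _ hβ
        rw [coeff_monomial, if_neg (fun h => hβ (Subtype.ext h.symm)), mul_zero, zero_mul]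
      · simp
    rw [h6, ← h4] at h5
    have h7 := TLam_eq_zero α0 J t.1 (hW t) _ (hsub t _ _ h5)
    rw [TLam_sub_smul, sub_eq_zero] at h7
    rw [h7]
    have h8 := hwt γ
    field_simp

end Pool.Agent.Helper56.Quot
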