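import Pool.Agent.Helper56.Quot.Defs
import Pool.Agent.Helper56.Quot.Line

namespace Pool.Agent.Helper56.Quot

open MvPolynomial Pool.Agent.Helper56.Disc Pool.Agent.Helper56.Ulr

theorem IsRegularFun.const {σ : Type} (X : Set (σ → ℂ)) (a : ℂ) :
    IsRegularFun X (fun _ => a) := fun x₀ =>
  ⟨C a, 1, by simp, fun x _ => by simp⟩

theorem IsRegularFun.add {σ : Type} {X : Set (σ → ℂ)} {φ ψ : X → ℂ}
    (h1 : IsRegularFun X φ) (h2 : IsRegularFun X ψ) : IsRegularFun X (φ + ψ) := by
  intro x₀
  obtain ⟨Q, R, hR, hQ⟩ := h1 x₀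
  obtain ⟨Q', R', hR', hQ'⟩ := h2 x₀
  refine ⟨Q * R' + Q' * R, R * R', by rw [map_mul]; exact mul_ne_zero hR hR', fun x hx => ?_⟩
  rw [map_mul] at hx
  have h3 := left_ne_zero_of_mul hx
  have h4 := right_ne_zero_of_mul hx
  rw [Pi.add_apply, hQ x h3, hQ' x h4, map_add, map_mul, map_mul, map_mul]
  field_simp

theorem IsRegularFun.mul {σ : Type} {X : Set (σ → ℂ)} {φ ψ : X → ℂ}
    (h1 : IsRegularFun X φ) (h2 : IsRegularFun X ψ) : IsRegularFun X (φ * ψ) := by
  intro x₀
  obtain ⟨Q, R, hR, hQ⟩ := h1 x₀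
  obtain ⟨Q', R', hR', hQ'⟩ := h2 x₀
  refine ⟨Q * Q', R * R', by rw [map_mul]; exact mul_ne_zero hR hR', fun x hx => ?_⟩
  rw [map_mul] at hx
  have h3 := left_ne_zero_of_mul hx
  have h4 := right_ne_zero_of_mul hx
  rw [Pi.mul_apply, hQ x h3, hQ' x h4, map_mul, map_mul]
  field_simp

theorem IsRegularFun.neg {σ : Type} {X : Set (σ → ℂ)} {φ : X → ℂ}
    (h1 : IsRegularFun X φ) : IsRegularFun X (-φ) := by
  intro x₀
  obtain ⟨Q, R, hR, hQ⟩ := h1 x₀
  refine ⟨-Q, R, hR, fun x hx => ?_⟩
  rw [Pi.neg_apply, hQ x hx, map_neg, neg_div]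

/-- `φ` is a regular function on the set of the `n`-tuples with nonzero resultant that depends
only on the span of the tuple and is invariant under `SL_n`. -/
def IsZFun {n k : ℕ} (φ : regTuples n k → ℂ) : Prop :=
  IsRegularFun (regTuples n k) φ ∧ IsSpanInvariant φ ∧ IsSubstInvariant φ

theorem IsZFun.mul {n k : ℕ} {φ ψ : regTuples n k → ℂ} (h : IsZFun φ) (h' : IsZFun ψ) :
    IsZFun (φ * ψ) := by
  obtain ⟨h1, h2, h3⟩ := h
  obtain ⟨h4, h5, h6⟩ := h'
  refine ⟨h1.mul h4, fun B hB t t' h => ?_, fun A hA t t' h => ?_⟩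
  · rw [Pi.mul_apply, Pi.mul_apply, h2 B hB t t' h, h5 B hB t t' h]
  · rw [Pi.mul_apply, Pi.mul_apply, h3 A hA t t' h, h6 A hA t t' h]

theorem IsZFun.add {n k : ℕ} {φ ψ : regTuples n k → ℂ} (h : IsZFun φ) (h' : IsZFun ψ) :
    IsZFun (φ + ψ) := by
  obtain ⟨h1, h2, h3⟩ := h
  obtain ⟨h4, h5, h6⟩ := h'
  refine ⟨h1.add h4, fun B hB t t' h => ?_, fun A hA t t' h => ?_⟩
  · rw [Pi.add_apply, Pi.add_apply, h2 B hB t t' h, h5 B hB t t' h]
  · rw [Pi.add_apply, Pi.add_apply, h3 A hA t t' h, h6 A hA t t' h]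

theorem IsZFun.neg {n k : ℕ} {φ : regTuples n k → ℂ} (h : IsZFun φ) : IsZFun (-φ) := by
  obtain ⟨h1, h2, h3⟩ := h
  refine ⟨h1.neg, fun B hB t t' h => ?_, fun A hA t t' h => ?_⟩
  · rw [Pi.neg_apply, Pi.neg_apply, h2 B hB t t' h]
  · rw [Pi.neg_apply, Pi.neg_apply, h3 A hA t t' h]

theorem IsZFun.zero {n k : ℕ} : IsZFun (0 : regTuples n k → ℂ) :=
  ⟨IsRegularFun.const _ 0, fun _ _ _ _ _ => rfl, fun _ _ _ _ _ => rfl⟩

theorem IsZFun.one {n k : ℕ} : IsZFun (1 : regTuples n k → ℂ) :=
  ⟨IsRegularFun.const _ 1, fun _ _ _ _ _ => rfl, fun _ _ _ _ _ => rfl⟩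

/-- The ring `ℂ[Z]^{SL_n}`, as a ring of functions. -/
def ringZ (n k : ℕ) : Subring (regTuples n k → ℂ) where
  carrier := {φ | IsZFun φ}
  mul_mem' := IsZFun.mul
  one_mem' := IsZFun.one
  add_mem' := IsZFun.add
  zero_mem' := IsZFun.zero
  neg_mem' := IsZFun.neg

/-- The ring `ℂ[Z]^{SL_n}`. -/
abbrev RingZ (n k : ℕ) : Type := ringZ n k

/-- The function on tuples given by an element of `RingZ n k`. -/
def RingZ.fn {n k : ℕ} (φ : RingZ n k) : regTuples n k → ℂ := Subtype.val φ

theorem IsSLInvariant.mul {n N : ℕ} {P Q : MvPolynomial (Mon n N) ℂ} (hP : IsSLInvariant P)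
    (hQ : IsSLInvariant Q) : IsSLInvariant (P * Q) := by
  intro A hA c c' h
  rw [map_mul, map_mul, hP A hA c c' h, hQ A hA c c' h]

theorem IsSLInvariant.add {n N : ℕ} {P Q : MvPolynomial (Mon n N) ℂ} (hP : IsSLInvariant P)
    (hQ : IsSLInvariant Q) : IsSLInvariant (P + Q) := by
  intro A hA c c' h
  rw [map_add, map_add, hP A hA c c' h, hQ A hA c c' h]

theorem IsSLInvariant.neg {n N : ℕ} {P : MvPolynomial (Mon n N) ℂ} (hP : IsSLInvariant P) :
    IsSLInvariant (-P) := by
  intro A hA c c' h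
  rw [map_neg, map_neg, hP A hA c c' h]

theorem IsSLInvariant.zero {n N : ℕ} : IsSLInvariant (0 : MvPolynomial (Mon n N) ℂ) := by
  intro A hA c c' h
  rw [map_zero, map_zero]

theorem IsSLInvariant.one {n N : ℕ} : IsSLInvariant (1 : MvPolynomial (Mon n N) ℂ) := by
  intro A hA c c' h
  rw [map_one, map_one]

/-- The `SL_n`-invariant polynomials on the space of forms of degree `N`. -/
def invRing (n N : ℕ) : Subring (MvPolynomial (Mon n N) ℂ) where
  carrier := {P | IsSLInvariant P}
  mul_mem' := IsSLInvariant.mul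
  one_mem' := IsSLInvariant.one
  add_mem' := IsSLInvariant.add
  zero_mem' := IsSLInvariant.zero
  neg_mem' := IsSLInvariant.neg

/-- The ring of the `SL_n`-invariant polynomials on the space of forms of degree `N`. -/
abbrev InvRing (n N : ℕ) : Type := invRing n N

/-- The polynomial given by an element of `InvRing n N`. -/
def InvRing.poly {n N : ℕ} (P : InvRing n N) : MvPolynomial (Mon n N) ℂ := Subtype.val P

/-- The element of `InvRing n N` given by an invariant polynomial. -/
def InvRing.mk {n N : ℕ} (P : MvPolynomial (Mon n N) ℂ) (h : IsSLInvariant P) : InvRing n N :=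
  (⟨P, h⟩ : invRing n N)

theorem InvRing.poly_mk {n N : ℕ} (P : MvPolynomial (Mon n N) ℂ) (h : IsSLInvariant P) :
    (InvRing.mk P h).poly = P := rfl

theorem InvRing.inv {n N : ℕ} (P : InvRing n N) : IsSLInvariant P.poly := P.2

theorem InvRing.poly_mul {n N : ℕ} (P Q : InvRing n N) : (P * Q).poly = P.poly * Q.poly := rfl

theorem InvRing.poly_pow {n N : ℕ} (P : InvRing n N) (r : ℕ) : (P ^ r).poly = P.poly ^ r := rfl

theorem InvRing.ext {n N : ℕ} {P Q : InvRing n N} (h : P.poly = Q.poly) : P = Q := Subtype.ext h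

/-- The inclusion of the ring of invariants. -/
noncomputable def InvRing.hom (n N : ℕ) : InvRing n N →+* MvPolynomial (Mon n N) ℂ :=
  (invRing n N).subtype

theorem hom_add {n N k : ℕ} {P Q : InvRing n N} (hP : P.poly.IsHomogeneous k)
    (hQ : Q.poly.IsHomogeneous k) : (P + Q).poly.IsHomogeneous k := hP.add hQ

theorem hom_zero {n N k : ℕ} : (0 : InvRing n N).poly.IsHomogeneous k := isHomogeneous_zero _ _ _

theorem hom_neg {n N k : ℕ} {P : InvRing n N} (hP : P.poly.IsHomogeneous k) :
    (-P).poly.IsHomogeneous k := hP.neg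

/-- The grading of the ring of invariants by the degree. -/
def invGr (n N : ℕ) (k : ℕ) : AddSubgroup (InvRing n N) where
  carrier := {P | P.poly.IsHomogeneous k}
  add_mem' := hom_add
  zero_mem' := hom_zero
  neg_mem' := hom_neg

theorem mem_invGr {n N k : ℕ} (P : InvRing n N) : P ∈ invGr n N k ↔ P.poly.IsHomogeneous k :=
  Iff.rfl

theorem homogeneousComponent_invariant {n N : ℕ} (P : MvPolynomial (Mon n N) ℂ)
    (hP : IsSLInvariant P) (j : ℕ) : IsSLInvariant (homogeneousComponent j P) := by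
  intro A hA c c' h
  rw [← coeff_line, ← coeff_line]
  congr 1
  apply Polynomial.funext
  intro s
  rw [eval_line, eval_line]
  apply hP A hA
  have h1 : ∀ v : Mon n N → ℂ, form (fun i => s * v i) = C s * form v := fun v => form_smul s v
  rw [h1, h1, h]
  unfold subst
  rw [map_mul, aeval_C, algebraMap_eq]

instance instGradedInv (n N : ℕ) : SetLike.GradedMonoid (invGr n N) where
  one_mem := isHomogeneous_one _ _
  mul_mem := fun _ _ _ _ hP hQ => hP.mul hQ

theorem invGr_isInternal (n N : ℕ) : DirectSum.IsInternal (invGr n N) := by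
  classical
  constructor
  · intro x y hxy
    ext k : 1
    apply Subtype.ext
    apply InvRing.ext
    have key : ∀ z : DirectSum ℕ fun i => invGr n N i,
        homogeneousComponent k ((DirectSum.coeAddMonoidHom (invGr n N) z).poly) =
          (z k).1.poly := by
      intro z
      induction z using DirectSum.induction_on with
      | zero =>
        rw [map_zero, DirectSum.zero_apply]
        exact map_zero _
      | of i a =>
        rw [DirectSum.coeAddMonoidHom_of]
        by_cases hik : i = k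
        · subst hik
          rw [DirectSum.of_eq_same, homogeneousComponent_of_mem a.2, if_pos rfl]
        · rw [DirectSum.of_eq_of_ne _ _ _ (Ne.symm hik), homogeneousComponent_of_mem a.2,
            if_neg (fun h => hik h.symm)]
          rfl
      | add a b ha hb =>
        rw [map_add, DirectSum.add_apply]
        show homogeneousComponent k (InvRing.poly _ + InvRing.poly _) = _
        rw [map_add, ha, hb]
        rfl
    rw [← key x, ← key y, hxy]
  · intro P
    refine ⟨∑ j ∈ Finset.range (P.poly.totalDegree + 1), DirectSum.of (fun i => invGr n N i) j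
      ⟨InvRing.mk (homogeneousComponent j P.poly)
        (homogeneousComponent_invariant P.poly P.inv j),
        homogeneousComponent_isHomogeneous j P.poly⟩, ?_⟩
    rw [map_sum]
    apply InvRing.ext
    simp only [DirectSum.coeAddMonoidHom_of]
    have h0 : ∀ (s : Finset ℕ) (f : ℕ → InvRing n N),
        (∑ j ∈ s, f j).poly = ∑ j ∈ s, (f j).poly := fun s f => map_sum (InvRing.hom n N) f s
    rw [h0]
    simp only [InvRing.poly_mk]
    exact sum_homogeneousComponent P.poly

noncomputable instance instDecInv (n N : ℕ) : DirectSum.Decomposition (invGr n N) :=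
  (invGr_isInternal n N).chooseDecomposition

noncomputable instance instGrRingInv (n N : ℕ) : GradedRing (invGr n N) where

end Pool.Agent.Helper56.Quot
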