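import Pool.Agent.Helper56.Quot.Rings

namespace Pool.Agent.Helper56.Quot

open MvPolynomial HomogeneousLocalization AlgebraicGeometry CategoryTheory
open Pool.Agent.Helper56.Disc Pool.Agent.Helper56.Ulr

/-- The part of degree `0` of the localization of the ring of invariants at `J`. -/
def LocRing {n N : ℕ} (J : InvRing n N) : Type := Away (invGr n N) J

noncomputable instance instCommLocRing {n N : ℕ} (J : InvRing n N) : CommRing (LocRing J) :=
  homogeneousLocalizationCommRing

/-- The fraction `P / J ^ r`, where `P` has degree `r k` and `J` has degree `k`. -/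
noncomputable def LocRing.frac {n N k : ℕ} {J : InvRing n N} (hJ : J.poly.IsHomogeneous k) (r : ℕ)
    (P : InvRing n N) (hP : P.poly.IsHomogeneous (r • k)) : LocRing J :=
  Away.mk (invGr n N) ((mem_invGr J).2 hJ) r P ((mem_invGr P).2 hP)

/-- The quotient of the variety `Z` of the spans of the tuples by `SL_n`. -/
noncomputable def quotZ (n d : ℕ) : Scheme := Spec (CommRingCat.of (RingZ n (d - 1)))

/-- The quotient by `SL_n` of the semistable points of the projective space of the forms of degree
`N`. -/
noncomputable def quotP (n N : ℕ) : Scheme := Proj (invGr n N)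

/-- The open immersion of the affine open set `D(J)` of `Proj`. -/
noncomputable def openD {n N k : ℕ} {J : InvRing n N} (hJ : J.poly.IsHomogeneous k) (hk : 0 < k) :
    Spec (CommRingCat.of (LocRing J)) ⟶ quotP n N :=
  Proj.awayι (invGr n N) J ((mem_invGr J).2 hJ) hk

/-- The ring homomorphism `ψ` is the pullback of functions along the map that sends a tuple of
forms of degree `d - 1` to its associated form `F`: it sends the fraction `P / J ^ r` of invariants
to the function `P(F) / J(F) ^ r`, and `J` does not vanish at the associated forms. -/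
def IsPullback (d : ℕ) {n N k : ℕ} {J : InvRing n N} (hJ : J.poly.IsHomogeneous k)
    (ψ : LocRing J →+* RingZ n (d - 1)) : Prop :=
  ∀ (t : regTuples n (d - 1)) (c : Mon n N → ℂ), IsAssociated d (tup t.1) (form c) →
    eval c J.poly ≠ 0 ∧ ∀ (r : ℕ) (P : InvRing n N) (hP : P.poly.IsHomogeneous (r • k)),
      (ψ (LocRing.frac hJ r P hP)).fn t = eval c P.poly / eval c J.poly ^ r

/-- `G` is the morphism of quotients induced by the associated form: for some invariant form `J` of
positive degree it maps into the affine open set `D(J)` of `Proj`, and there it is given by the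
pullback of the functions `P / J ^ r` along the associated form map. -/
def IsInduced {n d N : ℕ} (G : quotZ n d ⟶ quotP n N) : Prop :=
  ∃ (k : ℕ) (hk : 0 < k) (J : InvRing n N) (hJ : J.poly.IsHomogeneous k)
    (ψ : LocRing J →+* RingZ n (d - 1)), IsPullback d hJ ψ ∧
      G = Spec.map (CommRingCat.ofHom ψ) ≫ openD hJ hk

/-- `G` is an isomorphism onto a closed subscheme of an affine open subset of the target. -/
def IsClosedInAffineOpen {X Y : Scheme.{0}} (G : X ⟶ Y) : Prop :=
  ∃ U : Y.Opens, IsAffineOpen U ∧ ∃ g : X ⟶ U.toScheme, IsClosedImmersion g ∧ g ≫ U.ι = G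

end Pool.Agent.Helper56.Quot
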