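import Pool.Agent.Helper56.Quot.Final
import Pool.Agent.Helper56.Quot.SDefs

namespace Pool.Agent.Helper56.Quot

open MvPolynomial HomogeneousLocalization AlgebraicGeometry CategoryTheory
open Pool.Agent.Helper56.Disc Pool.Agent.Helper56.Ulr

variable {n d : ℕ}

/-- auxiliary form of `IsPullback` -/
def IsPullback0 (d : ℕ) {n N k : ℕ} {J : InvRing n N} (hJ : J ∈ invGr n N k)
    (ψ : Away (invGr n N) J →+* RingZ n (d - 1)) : Prop :=
  ∀ (t : regTuples n (d - 1)) (c : Mon n N → ℂ), IsAssociated d (tup t.1) (form c) →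
    eval c J.poly ≠ 0 ∧ ∀ (r : ℕ) (P : InvRing n N) (hP : P ∈ invGr n N (r • k)),
      (ψ (Away.mk (invGr n N) hJ r P hP)).fn t = eval c P.poly / eval c J.poly ^ r

/-- auxiliary form of `IsInduced` -/
def IsInduced0 (n d : ℕ)
    (G : Spec (CommRingCat.of (RingZ n (d - 1))) ⟶ Proj (invGr n (n * (d - 2)))) : Prop :=
  ∃ (k : ℕ) (hk : 0 < k) (J : InvRing n (n * (d - 2))) (hJ : J ∈ invGr n (n * (d - 2)) k)
    (ψ : Away (invGr n (n * (d - 2))) J →+* RingZ n (d - 1)), IsPullback0 d hJ ψ ∧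
      G = Spec.map (CommRingCat.ofHom ψ) ≫ Proj.awayι (invGr n (n * (d - 2))) J hJ hk

theorem isInduced_iff (G : quotZ n d ⟶ quotP n (n * (d - 2))) :
    IsInduced G ↔ IsInduced0 n d G := Iff.rfl

theorem pull_isPullback (hn : 2 ≤ n) (hd : 3 ≤ d) (J : InvRing n (n * (d - 2)))
    (hJ0 : ∀ t, eval (psi hd t) J.poly ≠ 0) (k : ℕ) (hJ : J ∈ invGr n (n * (d - 2)) k) :
    IsPullback0 d hJ (pull hn hd J hJ0 k hJ) := by
  intro t c hc
  have h1 := psi_eq hd t c hc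
  subst h1
  exact ⟨hJ0 t, fun r P hP => pull0_mk hd J hJ0 k hJ r P hP t⟩

theorem IsPullback0.eq_pull (hn : 2 ≤ n) (hd : 3 ≤ d) (J : InvRing n (n * (d - 2)))
    (hJ0 : ∀ t, eval (psi hd t) J.poly ≠ 0) (k : ℕ) (hJ : J ∈ invGr n (n * (d - 2)) k)
    (ψ : Away (invGr n (n * (d - 2))) J →+* RingZ n (d - 1)) (h : IsPullback0 d hJ ψ) :
    ψ = pull hn hd J hJ0 k hJ := by
  apply RingHom.ext
  intro z
  obtain ⟨r, P, hP, rfl⟩ := Away.mk_surjective _ hJ z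
  apply RingZ.ext
  funext t
  rw [((h t _ (psi_spec hd t)).2 r P hP),
    ((pull_isPullback hn hd J hJ0 k hJ t _ (psi_spec hd t)).2 r P hP)]

theorem pull_mul (hn : 2 ≤ n) (hd : 3 ≤ d) (J J' x : InvRing n (n * (d - 2)))
    (hJ0 : ∀ t, eval (psi hd t) J.poly ≠ 0) (k k' K : ℕ) (hJ : J ∈ invGr n (n * (d - 2)) k)
    (hJ' : J' ∈ invGr n (n * (d - 2)) k') (hx : x = J * J') (hK : K = k + k')
    (hx0 : ∀ t, eval (psi hd t) x.poly ≠ 0)
    (hxK : x ∈ invGr n (n * (d - 2)) K) :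
    (pull hn hd x hx0 K hxK).comp (awayMap (invGr n (n * (d - 2))) hJ' hx) =
      pull hn hd J hJ0 k hJ := by
  subst hK
  apply RingHom.ext
  intro z
  obtain ⟨r, P, hP, rfl⟩ := Away.mk_surjective _ hJ z
  apply RingZ.ext
  funext t
  rw [RingHom.comp_apply, awayMap_mk,
    ((pull_isPullback hn hd J hJ0 k hJ t _ (psi_spec hd t)).2 r P hP),
    ((pull_isPullback hn hd x hx0 (k + k') hxK t _ (psi_spec hd t)).2 r _ _)]
  have h1 := hJ0 t
  have h5 : x.poly = J.poly * J'.poly := by rw [hx]; rfl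
  have h2 : eval (psi hd t) J'.poly ≠ 0 := by
    have h3 := hx0 t
    rw [h5, map_mul] at h3
    exact right_ne_zero_of_mul h3
  have h6 : (P * J' ^ r).poly = P.poly * J'.poly ^ r := rfl
  rw [h5, h6, map_mul, map_mul, map_pow]
  field_simp
  ring

theorem induced_unique (hn : 2 ≤ n) (hd : 3 ≤ d)
    (G G' : Spec (CommRingCat.of (RingZ n (d - 1))) ⟶ Proj (invGr n (n * (d - 2))))
    (hG : IsInduced0 n d G) (hG' : IsInduced0 n d G') : G = G' := by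
  obtain ⟨k, hk, J, hJ, ψ, hψ, rfl⟩ := hG
  obtain ⟨k', hk', J', hJ', ψ', hψ', rfl⟩ := hG'
  have hJ0 : ∀ t, eval (psi hd t) J.poly ≠ 0 := fun t => (hψ t _ (psi_spec hd t)).1
  have hJ0' : ∀ t, eval (psi hd t) J'.poly ≠ 0 := fun t => (hψ' t _ (psi_spec hd t)).1
  rw [hψ.eq_pull hn hd J hJ0 k hJ, hψ'.eq_pull hn hd J' hJ0' k' hJ']
  have hJJ : J * J' ∈ invGr n (n * (d - 2)) (k + k') := SetLike.mul_mem_graded hJ hJ'
  have hJJ0 : ∀ t, eval (psi hd t) (J * J').poly ≠ 0 := by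
    intro t
    have h4 : (J * J').poly = J.poly * J'.poly := rfl
    rw [h4, map_mul]
    exact mul_ne_zero (hJ0 t) (hJ0' t)
  rw [← pull_mul hn hd J J' (J * J') hJ0 k k' (k + k') hJ hJ' rfl rfl hJJ0 hJJ,
    ← pull_mul hn hd J' J (J * J') hJ0' k' k (k + k') hJ' hJ (mul_comm _ _) (add_comm _ _)
      hJJ0 hJJ, CommRingCat.ofHom_comp,
    CommRingCat.ofHom_comp, Spec.map_comp, Spec.map_comp, Category.assoc, Category.assoc,
    Proj.SpecMap_awayMap_awayι, Proj.SpecMap_awayMap_awayι]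
  rfl

theorem closed_aux {A R : Type} [CommRing A] (𝒜 : ℕ → AddSubgroup A)
    [GradedRing 𝒜] [CommRing R] (J : A) (k : ℕ) (hJ : J ∈ 𝒜 k) (hk : 0 < k)
    (ψ : Away 𝒜 J →+* R) (hψ : Function.Surjective ψ) :
    IsClosedInAffineOpen (Spec.map (CommRingCat.ofHom ψ) ≫ Proj.awayι 𝒜 J hJ hk) := by
  refine ⟨Proj.basicOpen 𝒜 J, Proj.isAffineOpen_basicOpen _ _ hJ hk,
    Spec.map (CommRingCat.ofHom ψ) ≫ (Proj.basicOpenIsoSpec 𝒜 J hJ hk).inv, ?_, ?_⟩
  · have h1 : IsClosedImmersion (Spec.map (CommRingCat.ofHom ψ)) :=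
      IsClosedImmersion.spec_of_surjective _ hψ
    infer_instance
  · rw [Category.assoc, Proj.basicOpenIsoSpec_inv_ι]

theorem exists_closed (hn : 2 ≤ n) (hd : 3 ≤ d) :
    ∃ G, IsInduced0 n d G ∧ IsClosedInAffineOpen G := by
  obtain ⟨k, hk, J, S, hJh, hJi, hJS⟩ := main n d hn hd
  have hJ0 : ∀ t, eval (psi hd t) J ≠ 0 := by
    intro t
    have h4 := psi_mem hd t
    rw [hJS] at h4
    exact h4.1
  let J' : InvRing n (n * (d - 2)) := InvRing.mk J hJi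
  have hJ' : J' ∈ invGr n (n * (d - 2)) k := hJh
  have hsurj := pull_surjective hn hd J' hJ0 k hJ' S hJS
  exact ⟨_, ⟨k, hk, J', hJ', pull hn hd J' hJ0 k hJ',
    pull_isPullback hn hd J' hJ0 k hJ', rfl⟩, closed_aux _ J' k hJ' hk _ hsurj⟩

theorem exists_unique_assoc (hd : 3 ≤ d) (t : regTuples n (d - 1)) :
    ∃! c : Mon n (n * (d - 2)) → ℂ, IsAssociated d (tup t.1) (form c) :=
  ⟨psi hd t, psi_spec hd t, fun c hc => (psi_eq hd t c hc).symm⟩

theorem exists_closed' (hn : 2 ≤ n) (hd : 3 ≤ d) :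
    ∃ G : quotZ n d ⟶ quotP n (n * (d - 2)), IsInduced G ∧ IsClosedInAffineOpen G :=
  exists_closed hn hd

theorem induced_unique' (hn : 2 ≤ n) (hd : 3 ≤ d)
    (G G' : quotZ n d ⟶ quotP n (n * (d - 2))) (hG : IsInduced G) (hG' : IsInduced G') :
    G = G' :=
  induced_unique hn hd G G' hG hG'

end Pool.Agent.Helper56.Quot
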