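import Pool.Agent.Helper56.Quot.Kernel

namespace Pool.Agent.Helper56.Quot

open MvPolynomial Matrix Pool.Agent.Helper56.Disc Pool.Agent.Helper56.Ulr

variable {n d : ℕ}

/-- The coefficient vector of the associated form of a tuple. -/
noncomputable def psi (hd : 3 ≤ d) (t : regTuples n (d - 1)) : Mon n (n * (d - 2)) → ℂ :=
  cv (existsUnique_isAssociated hd (tup t.1) t.2).choose

theorem form_psi (hd : 3 ≤ d) (t : regTuples n (d - 1)) :
    form (psi hd t) = (existsUnique_isAssociated hd (tup t.1) t.2).choose :=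
  form_cv _ (existsUnique_isAssociated hd (tup t.1) t.2).choose_spec.1.1

theorem psi_spec (hd : 3 ≤ d) (t : regTuples n (d - 1)) :
    IsAssociated d (tup t.1) (form (psi hd t)) := by
  rw [form_psi]
  exact (existsUnique_isAssociated hd (tup t.1) t.2).choose_spec.1

theorem psi_unique (hd : 3 ≤ d) (t : regTuples n (d - 1)) (F : MvPolynomial (Fin n) ℂ)
    (hF : IsAssociated d (tup t.1) F) : form (psi hd t) = F := by
  rw [form_psi]
  exact ((existsUnique_isAssociated hd (tup t.1) t.2).choose_spec.2 F hF).symm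

theorem psi_eq (hd : 3 ≤ d) (t : regTuples n (d - 1)) (c : Mon n (n * (d - 2)) → ℂ)
    (hF : IsAssociated d (tup t.1) (form c)) : psi hd t = c := by
  rw [← cv_form (psi hd t), psi_unique hd t _ hF, cv_form]

theorem psi_mem (hd : 3 ≤ d) (t : regTuples n (d - 1)) : psi hd t ∈ assocImage n d :=
  ⟨tup t.1, t.2, psi_spec hd t⟩

/-- the tuple of coefficients of a tuple of forms -/
noncomputable def untup {n k : ℕ} (f : Fin n → MvPolynomial (Fin n) ℂ) : Fin n × Mon n k → ℂ :=
  fun x => coeff x.2.1 (f x.1)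

theorem tup_untup {n k : ℕ} (f : Fin n → MvPolynomial (Fin n) ℂ)
    (hf : ∀ i, (f i).IsHomogeneous k) : tup (untup f : Fin n × Mon n k → ℂ) = f := by
  funext i
  exact form_cv (f i) (hf i)

theorem exists_of_mem (hd : 3 ≤ d) (c : Mon n (n * (d - 2)) → ℂ) (hc : c ∈ assocImage n d) :
    ∃ t : regTuples n (d - 1), psi hd t = c := by
  obtain ⟨f, hf, hF⟩ := hc
  have h1 : (untup f : Fin n × Mon n (d - 1) → ℂ) ∈ regTuples n (d - 1) := by
    show IsRegularTuple (d - 1) (tup _)
    rw [tup_untup f hf.1]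
    exact hf
  refine ⟨⟨untup f, h1⟩, psi_eq hd _ _ ?_⟩
  show IsAssociated d (tup (untup f)) (form c)
  rw [tup_untup f hf.1]
  exact hF

theorem map_CatP (N k : ℕ) (c : Mon n N → ℂ) :
    (CatP n N k)ᵀ.map (eval c) = (Cat k c)ᵀ := by
  ext i j
  rw [map_apply, transpose_apply, transpose_apply]
  exact eval_CatP k c j i

/-- The rank of the catalecticant of an associated form. -/
theorem rank_Cat (hn : 2 ≤ n) (hd : 3 ≤ d) (t : regTuples n (d - 1)) :
    (Cat (d - 1) (psi hd t)).rank = Fintype.card (Mon n (d - 1)) - n := by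
  obtain ⟨h1, h2⟩ := perp_of_associated hn hd (tup t.1) t.2 (psi hd t) (psi_spec hd t)
  have hlin := regular_linearIndependent (by omega) (tup t.1) t.2
  apply le_antisymm
  · rw [← minors_iff]
    exact minors_of_perp (d - 1) (psi hd t) (tup t.1) t.2.1 hlin h2
  · have h3 := rank_Cat_add (d - 1) (psi hd t)
    have h4 : Module.finrank ℂ (LinearMap.ker (Cat (d - 1) (psi hd t))ᵀ.mulVecLin) ≤ n := by
      have h5 : ∀ v : LinearMap.ker (Cat (d - 1) (psi hd t))ᵀ.mulVecLin,
          (formL n (d - 1) ∘ₗ Submodule.subtype _) v ∈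
            Submodule.span ℂ (Set.range (tup t.1)) := by
        intro v
        apply mem_span_of_perp hn hd (tup t.1) t.2 (psi hd t) (psi_spec hd t) _
          (form_isHomogeneous _)
        exact (vecMul_Cat_eq_zero (d - 1) (psi hd t) v.1).1 (LinearMap.mem_ker.1 v.2)
      have hfin : Module.Finite ℂ (Submodule.span ℂ (Set.range (tup t.1))) :=
        Module.Finite.span_of_finite ℂ (Set.finite_range _)
      have h6 := LinearMap.finrank_le_finrank_of_injective
        (f := ((formL n (d - 1) ∘ₗ Submodule.subtype _).codRestrict _ h5)) (by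
          rw [← LinearMap.ker_eq_bot, LinearMap.ker_codRestrict, LinearMap.ker_comp,
            formL_ker]
          exact Submodule.ker_subtype _)
      rw [finrank_span_eq_card hlin, Fintype.card_fin] at h6
      exact h6
    omega

/-- Near an associated form, a tuple can be recovered (up to the choice of a basis of its span) by
polynomials in the coefficients of the associated form. -/
theorem exists_local_section (hn : 2 ≤ n) (hd : 3 ≤ d) (t₀ : regTuples n (d - 1)) :
    ∃ (Δ : MvPolynomial (Mon n (n * (d - 2))) ℂ)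
      (w : Fin n × Mon n (d - 1) → MvPolynomial (Mon n (n * (d - 2))) ℂ),
      eval (psi hd t₀) Δ ≠ 0 ∧ ∀ t : regTuples n (d - 1), eval (psi hd t) Δ ≠ 0 →
        ∃ B : Matrix (Fin n) (Fin n) ℂ, B.det ≠ 0 ∧
          ∀ i, tup (fun x => eval (psi hd t) (w x)) i = ∑ j, C (B i j) * tup t.1 j := by
  classical
  have hcard : Fintype.card (Mon n (d - 1)) = (Fintype.card (Mon n (d - 1)) - n) + n := by
    have := le_card_mon (n := n) (k := d - 1) (by omega)
    omega
  obtain ⟨Δ, w, h1, h2⟩ := exists_kernel_basis hcard (CatP n (n * (d - 2)) (d - 1))ᵀ (psi hd t₀)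
    (by rw [map_CatP, rank_transpose]; exact rank_Cat hn hd t₀)
  refine ⟨Δ, fun x => w x.1 x.2, h1, fun t ht => ?_⟩
  obtain ⟨h3, h4⟩ := h2 (psi hd t) ht
    (by rw [map_CatP, rank_transpose]; exact rank_Cat hn hd t)
  rw [map_CatP] at h4
  have h5 : ∀ i, form (fun x => eval (psi hd t) (w i x)) ∈
      Submodule.span ℂ (Set.range (tup t.1)) := by
    intro i
    apply mem_span_of_perp hn hd (tup t.1) t.2 (psi hd t) (psi_spec hd t) _
      (form_isHomogeneous _)
    exact (vecMul_Cat_eq_zero (d - 1) (psi hd t) _).1 (h4 i)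
  have h6 : ∀ i, ∃ b : Fin n → ℂ, ∑ j, b j • tup t.1 j =
      form (fun x => eval (psi hd t) (w i x)) := fun i =>
    (Submodule.mem_span_range_iff_exists_fun ℂ).1 (h5 i)
  choose B hB using h6
  refine ⟨Matrix.of B, ?_, fun i => ?_⟩
  · intro hdet
    obtain ⟨v, hv0, hv⟩ := Matrix.exists_vecMul_eq_zero_iff.2 hdet
    apply hv0
    have h7 := h3.map' (formL n (d - 1)) (formL_ker n (d - 1))
    funext i
    refine Fintype.linearIndependent_iff.1 h7 v ?_ i
    have h8 : ∀ i, (formL n (d - 1) ∘ fun j x => eval (psi hd t) (w j x)) i =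
        ∑ j, B i j • tup t.1 j := fun i => (hB i).symm
    rw [Finset.sum_congr rfl fun i _ => congrArg (v i • ·) (h8 i)]
    simp only [Finset.smul_sum, smul_smul]
    rw [Finset.sum_comm]
    apply Finset.sum_eq_zero
    intro j _
    rw [← Finset.sum_smul]
    have h9 := congrFun hv j
    rw [vecMul, dotProduct, Pi.zero_apply] at h9
    have h10 : ∑ i, v i * B i j = 0 := h9
    rw [h10, zero_smul]
  · show form (fun x => eval (psi hd t) (w i x)) = _
    rw [← hB i]
    apply Finset.sum_congr rfl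
    intro j _
    rw [smul_eq_C_mul]
    rfl

/-- The denominators of a function along the associated form map. -/
def denoms (hd : 3 ≤ d) (φ : regTuples n (d - 1) → ℂ) :
    Ideal (MvPolynomial (Mon n (n * (d - 2))) ℂ) where
  carrier := {b | ∃ a : MvPolynomial (Mon n (n * (d - 2))) ℂ,
    ∀ t, eval (psi hd t) b * φ t = eval (psi hd t) a}
  add_mem' := by
    rintro b b' ⟨a, ha⟩ ⟨a', ha'⟩
    refine ⟨a + a', fun t => ?_⟩
    rw [map_add, map_add, add_mul, ha, ha']
  zero_mem' := ⟨0, fun t => by rw [map_zero, zero_mul]⟩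
  smul_mem' := by
    rintro r b ⟨a, ha⟩
    refine ⟨r * a, fun t => ?_⟩
    rw [smul_eq_mul, map_mul, map_mul, mul_assoc, ha]

theorem mem_denoms (hd : 3 ≤ d) (φ : regTuples n (d - 1) → ℂ)
    (b : MvPolynomial (Mon n (n * (d - 2))) ℂ) :
    b ∈ denoms hd φ ↔ ∃ a : MvPolynomial (Mon n (n * (d - 2))) ℂ,
      ∀ t, eval (psi hd t) b * φ t = eval (psi hd t) a := Iff.rfl

theorem exists_denom (hn : 2 ≤ n) (hd : 3 ≤ d) (φ : regTuples n (d - 1) → ℂ)
    (h1 : IsRegularFun _ φ) (h2 : IsSpanInvariant φ) (t₀ : regTuples n (d - 1)) :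
    ∃ b ∈ denoms hd φ, eval (psi hd t₀) b ≠ 0 := by
  obtain ⟨Δ, w, hΔ, hw⟩ := exists_local_section hn hd t₀
  have hmem : ∀ t : regTuples n (d - 1), eval (psi hd t) Δ ≠ 0 →
      (fun x => eval (psi hd t) (w x)) ∈ regTuples n (d - 1) := by
    intro t ht
    obtain ⟨B, hB, hBt⟩ := hw t ht
    show IsRegularTuple (d - 1) (tup _)
    have h3 : tup (fun x => eval (psi hd t) (w x)) = fun i => ∑ j, C (B i j) * tup t.1 j :=
      funext hBt
    rw [h3]
    exact regular_smul B hB _ t.2
  have hφ : ∀ (t : regTuples n (d - 1)) (ht : eval (psi hd t) Δ ≠ 0),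
      φ ⟨_, hmem t ht⟩ = φ t := by
    intro t ht
    obtain ⟨B, hB, hBt⟩ := hw t ht
    exact h2 B hB t _ hBt
  obtain ⟨Q, R, hR, hQ⟩ := h1 ⟨_, hmem t₀ hΔ⟩
  have hev : ∀ (P : MvPolynomial (Fin n × Mon n (d - 1)) ℂ) (t : regTuples n (d - 1)),
      eval (psi hd t) (aeval w P) = eval (fun x => eval (psi hd t) (w x)) P :=
    fun P t => eval_aeval_gen _ _ _
  refine ⟨Δ * (aeval w R * aeval w R), ⟨Δ * (aeval w R * aeval w Q), fun t => ?_⟩, ?_⟩
  · rw [map_mul, map_mul, map_mul, map_mul, hev, hev]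
    by_cases ht : eval (psi hd t) Δ = 0
    · rw [ht]; ring
    · by_cases hRt : eval (fun x => eval (psi hd t) (w x)) R = 0
      · rw [hRt]; ring
      · have h3 := hQ ⟨_, hmem t ht⟩ hRt
        rw [hφ t ht] at h3
        rw [h3]
        field_simp
  · rw [map_mul, map_mul, hev]
    exact mul_ne_zero hΔ (mul_ne_zero hR hR)

/-- A power of `J` is a denominator. -/
theorem exists_pow (hn : 2 ≤ n) (hd : 3 ≤ d) (J : MvPolynomial (Mon n (n * (d - 2))) ℂ)
    (S : Set (MvPolynomial (Mon n (n * (d - 2))) ℂ))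
    (hJS : assocImage n d = {c | eval c J ≠ 0 ∧ ∀ s ∈ S, eval c s = 0})
    (φ : regTuples n (d - 1) → ℂ) (h1 : IsRegularFun _ φ) (h2 : IsSpanInvariant φ) :
    ∃ (r : ℕ) (a : MvPolynomial (Mon n (n * (d - 2))) ℂ),
      ∀ t, eval (psi hd t) J ^ r * φ t = eval (psi hd t) a := by
  classical
  have hrad : J ∈ (denoms hd φ).radical := by
    rw [← vanishingIdeal_zeroLocus_eq_radical (K := ℂ), mem_vanishingIdeal_iff]
    intro c hc
    rw [mem_zeroLocus_iff] at hc
    rw [aeval_eq_eval]
    by_contra hne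
    have hmem : c ∈ assocImage n d := by
      rw [hJS]
      refine ⟨hne, fun s hs => ?_⟩
      have h3 : s ∈ denoms hd φ := by
        refine ⟨0, fun t => ?_⟩
        have h4 := psi_mem hd t
        rw [hJS] at h4
        rw [h4.2 s hs, zero_mul, map_zero]
      have h5 := hc s h3
      rwa [aeval_eq_eval] at h5
    obtain ⟨t, rfl⟩ := exists_of_mem hd c hmem
    obtain ⟨b, hb, hbt⟩ := exists_denom hn hd φ h1 h2 t
    apply hbt
    have h5 := hc b hb
    rwa [aeval_eq_eval] at h5
  obtain ⟨r, hr⟩ := hrad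
  obtain ⟨a, ha⟩ := (mem_denoms hd φ _).1 hr
  refine ⟨r, a, fun t => ?_⟩
  rw [← ha, map_pow]

end Pool.Agent.Helper56.Quot
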